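import Mathlib

/-!
# SDR Good: good indices of a sequence which does not decay like `exp (- c k / log k)`

`ep = 2 et / log N` for a large `N` with `m N > exp (- et N / log N)`; `n₁` maximises `m i exp (ep i)` over `i ≤ N`, `n` maximises `m i exp (- ep i)` over
`i ≥ n₁`.  Then `m i ≤ m n exp (ep |i - n|)` for all `i`, `N / 4 ≤ n ≤ 2 N`.
-/

set_option autoImplicit false

open Topology Filter

noncomputable section

namespace Pool.Agent.SDR

/-- the two maximisations -/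
theorem exists_two_max {m : ℕ → ℝ} (hm : ∀ k, 0 < m k) {M : ℝ} (hM : ∀ k, m k ≤ M) {ε : ℝ} (hε : 0 < ε) (N : ℕ) :
    ∃ n₁ n : ℕ, n₁ ≤ N ∧ n₁ ≤ n ∧ (∀ i ≤ N, m i * Real.exp (ε * i) ≤ m n₁ * Real.exp (ε * n₁)) ∧
      ∀ i, n₁ ≤ i → m i * Real.exp (-(ε * i)) ≤ m n * Real.exp (-(ε * n)) := by
  obtain ⟨n₁, h1, h2⟩ := Finset.exists_max_image (Finset.range (N + 1)) (fun i => m i * Real.exp (ε * i)) ⟨0, by simp⟩
  have hn1 : n₁ ≤ N := Nat.lt_succ_iff.1 (Finset.mem_range.1 h1)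
  -- the second maximum
  have ht : Tendsto (fun i : ℕ => M * Real.exp (-(ε * i))) atTop (𝓝 0) := by
    have h3 : Tendsto (fun i : ℕ => Real.exp (-(ε * i))) atTop (𝓝 0) := by
      refine Real.tendsto_exp_neg_atTop_nhds_zero.comp ?_
      exact Tendsto.const_mul_atTop hε tendsto_natCast_atTop_atTop
    have h4 := h3.const_mul M
    rwa [mul_zero] at h4
  have hB : 0 < m n₁ * Real.exp (-(ε * n₁)) := mul_pos (hm _) (Real.exp_pos _)
  obtain ⟨K, hK⟩ := (ht.eventually (gt_mem_nhds hB)).exists_forall_of_atTop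
  obtain ⟨n, h3, h4⟩ := Finset.exists_max_image (Finset.Icc n₁ (max n₁ K)) (fun i => m i * Real.exp (-(ε * i)))
    ⟨n₁, Finset.mem_Icc.2 ⟨le_rfl, le_max_left _ _⟩⟩
  refine ⟨n₁, n, hn1, (Finset.mem_Icc.1 h3).1, fun i hi => h2 i (Finset.mem_range.2 (Nat.lt_succ_of_le hi)), fun i hi => ?_⟩
  by_cases hiK : i ≤ max n₁ K
  · exact h4 i (Finset.mem_Icc.2 ⟨hi, hiK⟩)
  · have h5 : K ≤ i := (le_max_right n₁ K).trans (not_le.1 hiK).le
    have h6 := hK i h5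
    have h7 : m i * Real.exp (-(ε * i)) ≤ M * Real.exp (-(ε * i)) := mul_le_mul_of_nonneg_right (hM i) (Real.exp_pos _).le
    have h8 := h4 n₁ (Finset.mem_Icc.2 ⟨le_rfl, le_max_left _ _⟩)
    exact (h7.trans h6.le).trans h8

/-- the two one-sided estimates give a two-sided one -/
theorem le_of_two_max {m : ℕ → ℝ} (hm : ∀ k, 0 < m k) {ε : ℝ} (hε : 0 < ε) {N n₁ n : ℕ} (hn1 : n₁ ≤ N) (hn : n₁ ≤ n)
    (hA : ∀ i ≤ N, m i * Real.exp (ε * i) ≤ m n₁ * Real.exp (ε * n₁))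
    (hB : ∀ i, n₁ ≤ i → m i * Real.exp (-(ε * i)) ≤ m n * Real.exp (-(ε * n))) (i : ℕ) : m i ≤ m n * Real.exp (ε * |(i : ℝ) - n|) := by
  have hB' : ∀ i, n₁ ≤ i → m i ≤ m n * Real.exp (ε * ((i : ℝ) - n)) := by
    intro i hi
    have h1 := mul_le_mul_of_nonneg_right (hB i hi) (Real.exp_pos (ε * i)).le
    rw [mul_assoc, ← Real.exp_add, neg_add_cancel, Real.exp_zero, mul_one, mul_assoc, ← Real.exp_add] at h1
    have h2 : -(ε * (n : ℝ)) + ε * i = ε * ((i : ℝ) - n) := by ring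
    rwa [h2] at h1
  have hnn : (n₁ : ℝ) ≤ n := by exact_mod_cast hn
  by_cases hi : n₁ ≤ i
  · refine (hB' i hi).trans (mul_le_mul_of_nonneg_left (Real.exp_le_exp.2 (mul_le_mul_of_nonneg_left (le_abs_self _) hε.le)) (hm n).le)
  · have hi' : i ≤ n₁ := (not_le.1 hi).le
    have hir : (i : ℝ) ≤ n₁ := by exact_mod_cast hi'
    have h1 := mul_le_mul_of_nonneg_right (hA i (hi'.trans hn1)) (Real.exp_pos (-(ε * i))).le
    rw [mul_assoc, ← Real.exp_add, add_neg_cancel, Real.exp_zero, mul_one, mul_assoc, ← Real.exp_add] at h1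
    have h2 := mul_le_mul_of_nonneg_right (hB' n₁ le_rfl) (Real.exp_pos (ε * n₁ + -(ε * i))).le
    refine (h1.trans h2).trans ?_
    rw [mul_assoc, ← Real.exp_add]
    refine mul_le_mul_of_nonneg_left (Real.exp_le_exp.2 ?_) (hm n).le
    have h3 : |(i : ℝ) - n| = n - i := by
      rw [abs_sub_comm, abs_of_nonneg]
      linarith
    rw [h3]
    nlinarith

/-- **Good indices.** -/
theorem good_index {m : ℕ → ℝ} (hm : ∀ k, 0 < m k) {M : ℝ} (hM : ∀ k, m k ≤ M)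
    (hs : ∀ η : ℝ, 0 < η → ∃ᶠ N : ℕ in atTop, Real.exp (-(η * N / Real.log N)) < m N) (η : ℝ) (hη : 0 < η) (n₀ : ℕ) :
    ∃ n : ℕ, n₀ ≤ n ∧ ∃ ε : ℝ, 0 < ε ∧ ε ≤ η ∧ ε * Real.log n ≤ η ∧ Real.exp (-(ε * n)) ≤ m n ∧
      ∀ i : ℕ, m i ≤ m n * Real.exp (ε * |(i : ℝ) - n|) := by
  -- `θ = η / 4` plays the role of `et`
  obtain ⟨θ, hθ⟩ : ∃ θ, θ = η / 4 := ⟨_, rfl⟩
  have hθ0 : 0 < θ := by rw [hθ]; linarith
  obtain ⟨L, hL⟩ : ∃ L, L = |Real.log M| := ⟨_, rfl⟩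
  have hM0 : 0 < M := (hm 0).trans_le (hM 0)
  -- large `N`
  have hlogN : Tendsto (fun N : ℕ => Real.log N) atTop atTop := Real.tendsto_log_atTop.comp tendsto_natCast_atTop_atTop
  have hlo : Tendsto (fun N : ℕ => Real.log N / N) atTop (𝓝 0) := by
    have h1 : Tendsto (fun x : ℝ => Real.log x / x) atTop (𝓝 0) := by
      have := Real.isLittleO_log_id_atTop.tendsto_div_nhds_zero
      exact this
    exact h1.comp tendsto_natCast_atTop_atTop
  have hlo2 : ∀ᶠ N : ℕ in atTop, L * (Real.log N / N) ≤ θ / 2 := by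
    have h1 := hlo.const_mul L
    rw [mul_zero] at h1
    filter_upwards [h1.eventually (gt_mem_nhds (show (0 : ℝ) < θ / 2 by linarith))] with N hN
    exact hN.le
  obtain ⟨N, hN, ⟨⟨hN1, hN2⟩, hN3⟩, hN4⟩ := ((hs θ hθ0).and_eventually ((((hlogN.eventually_ge_atTop 4).and
    (tendsto_natCast_atTop_atTop.eventually_ge_atTop (4 * (n₀ : ℝ) + 4))).and hlo2).and
      (hlogN.eventually_ge_atTop 1))).exists
  have hNpos : (0 : ℝ) < N := by
    have : (0 : ℝ) ≤ n₀ := Nat.cast_nonneg _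
    linarith
  have hlog : 0 < Real.log N := by linarith
  obtain ⟨ε, hε⟩ : ∃ ε, ε = 2 * θ / Real.log N := ⟨_, rfl⟩
  have hε0 : 0 < ε := by rw [hε]; positivity
  have hεlog : ε * Real.log N = 2 * θ := by rw [hε, div_mul_cancel₀ _ hlog.ne']
  obtain ⟨n₁, n, hn1, hn, hA, hB⟩ := exists_two_max hm hM hε0 N
  have hall := le_of_two_max hm hε0 hn1 hn hA hB
  -- `L ≤ ε N / 4`
  have hLN : L ≤ ε * N / 4 := by
    have h1 : L * Real.log N ≤ θ / 2 * N := by
      rw [mul_div_assoc'] at hN3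
      rwa [div_le_iff₀ hNpos] at hN3
    have h2 : L * Real.log N ≤ (ε * N / 4) * Real.log N := by
      have h3 : (ε * N / 4) * Real.log N = (ε * Real.log N) * N / 4 := by ring
      rw [h3, hεlog]
      linarith
    exact le_of_mul_le_mul_right h2 hlog
  -- the value at `N`
  have hmN : Real.exp (-(ε * N / 2)) ≤ m N := by
    have h1 : ε * N / 2 = θ * N / Real.log N := by
      rw [hε]
      field_simp
    rw [h1]
    exact hN.le
  have hexpM : ∀ k, m k ≤ Real.exp L := by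
    intro k
    refine (hM k).trans ?_
    rw [← Real.exp_log hM0, hL, Real.exp_log hM0]
    exact Real.exp_le_exp.2 (le_abs_self _) |>.trans_eq' (Real.exp_log hM0)
  -- `n₁ ≥ N / 4`
  have hA1 : Real.exp (ε * N / 2) ≤ m n₁ * Real.exp (ε * n₁) := by
    refine le_trans ?_ (hA N le_rfl)
    refine le_trans ?_ (mul_le_mul_of_nonneg_right hmN (Real.exp_pos _).le)
    rw [← Real.exp_add]
    exact Real.exp_le_exp.2 (by linarith)
  have hn1N : (N : ℝ) / 4 ≤ n₁ := by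
    have h1 : Real.exp (ε * N / 2) ≤ Real.exp (L + ε * n₁) := by
      rw [Real.exp_add]
      exact hA1.trans (mul_le_mul_of_nonneg_right (hexpM _) (Real.exp_pos _).le)
    have h2 := Real.exp_le_exp.1 h1
    have h3 : ε * (N / 4) ≤ ε * n₁ := by linarith
    exact le_of_mul_le_mul_left h3 hε0
  -- `n ≤ 2 N`
  have hn2N : (n : ℝ) ≤ 2 * N := by
    have h1 : Real.exp (-(ε * N / 2) + -(ε * N)) ≤ Real.exp (L + -(ε * n)) := by
      rw [Real.exp_add, Real.exp_add]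
      refine (mul_le_mul_of_nonneg_right hmN (Real.exp_pos _).le).trans ((hB N hn1).trans ?_)
      exact mul_le_mul_of_nonneg_right (hexpM _) (Real.exp_pos _).le
    have h2 := Real.exp_le_exp.1 h1
    have h3 : ε * n ≤ ε * (2 * N) := by
      have h4 : 0 ≤ ε * N := by positivity
      linarith
    exact le_of_mul_le_mul_left h3 hε0
  have hnn1 : (n₁ : ℝ) ≤ n := by exact_mod_cast hn
  refine ⟨n, ?_, ε, hε0, ?_, ?_, ?_, hall⟩
  · have h1 : (n₀ : ℝ) ≤ n := by linarith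
    exact_mod_cast h1
  · have h1 : ε * 4 ≤ ε * Real.log N := mul_le_mul_of_nonneg_left hN1 hε0.le
    rw [hεlog] at h1
    linarith
  · have h1 : Real.log n ≤ Real.log N + Real.log 2 := by
      rw [← Real.log_mul hNpos.ne' two_ne_zero]
      have h2 : (0 : ℝ) < n := by linarith
      exact Real.log_le_log h2 (by linarith)
    have h2 : Real.log 2 ≤ Real.log N := by
      have h3 : Real.log 2 ≤ 1 := by
        have := Real.log_two_lt_d9
        linarith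
      linarith
    have h3 : ε * Real.log n ≤ ε * (2 * Real.log N) := mul_le_mul_of_nonneg_left (by linarith) hε0.le
    have h4 : ε * (2 * Real.log N) = 4 * θ := by
      have : ε * (2 * Real.log N) = 2 * (ε * Real.log N) := by ring
      rw [this, hεlog]
      ring
    rw [h4] at h3
    linarith
  · -- `m n ≥ exp (- ε n)`
    have h1 : 1 ≤ m n₁ * Real.exp (ε * n₁) := by
      refine le_trans ?_ hA1
      exact Real.one_le_exp (by positivity)
    have h2 := hB n₁ le_rfl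
    have h3 : m n₁ ≤ m n * Real.exp (-(ε * n) + ε * n₁) := by
      have h4 := mul_le_mul_of_nonneg_right h2 (Real.exp_pos (ε * n₁)).le
      rwa [mul_assoc, ← Real.exp_add, neg_add_cancel, Real.exp_zero, mul_one, mul_assoc, ← Real.exp_add] at h4
    have h5 : 1 ≤ m n * Real.exp (ε * n) := by
      have h6 := mul_le_mul_of_nonneg_right h3 (Real.exp_pos (ε * n₁)).le
      rw [mul_assoc, ← Real.exp_add] at h6
      refine h1.trans (h6.trans (mul_le_mul_of_nonneg_left (Real.exp_le_exp.2 ?_) (hm n).le))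
      nlinarith
    have h6 := mul_le_mul_of_nonneg_right h5 (Real.exp_pos (-(ε * n))).le
    rwa [one_mul, mul_assoc, ← Real.exp_add, add_neg_cancel, Real.exp_zero, mul_one] at h6

/-- **Good indices**, as a sequence. -/
theorem good_seq {m : ℕ → ℝ} (hm : ∀ k, 0 < m k) {M : ℝ} (hM : ∀ k, m k ≤ M)
    (hs : ∀ η : ℝ, 0 < η → ∃ᶠ N : ℕ in atTop, Real.exp (-(η * N / Real.log N)) < m N) :
    ∃ (n : ℕ → ℕ) (ε : ℕ → ℝ), StrictMono n ∧ (∀ j, 0 < ε j) ∧ Tendsto ε atTop (𝓝 0) ∧ Tendsto (fun j => ε j * Real.log (n j)) atTop (𝓝 0) ∧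
      ∀ j, Real.exp (-(ε j * n j)) ≤ m (n j) ∧ ∀ i : ℕ, m i ≤ m (n j) * Real.exp (ε j * |(i : ℝ) - n j|) := by
  have hg := good_index hm hM hs
  have hpos : ∀ j : ℕ, (0 : ℝ) < 1 / (j + 1) := fun j => by positivity
  have h1 : ∀ (j n₀ : ℕ), ∃ n : ℕ, n₀ ≤ n ∧ ∃ ε : ℝ, 0 < ε ∧ ε ≤ 1 / (j + 1) ∧ ε * Real.log n ≤ 1 / (j + 1) ∧ Real.exp (-(ε * n)) ≤ m n ∧
      ∀ i : ℕ, m i ≤ m n * Real.exp (ε * |(i : ℝ) - n|) := fun j n₀ => hg (1 / (j + 1)) (hpos j) n₀
  choose f hf1 g hg1 hg2 hg3 hg4 hg5 using h1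
  obtain ⟨n, hn0, hn⟩ : ∃ n : ℕ → ℕ, n 0 = f 0 1 ∧ ∀ j, n (j + 1) = f (j + 1) (n j + 1) :=
    ⟨fun j => Nat.rec (f 0 1) (fun j a => f (j + 1) (a + 1)) j, rfl, fun j => rfl⟩
  obtain ⟨b, hb0, hb⟩ : ∃ b : ℕ → ℕ, b 0 = 1 ∧ ∀ j, b (j + 1) = n j + 1 :=
    ⟨fun j => Nat.casesOn j 1 fun j => n j + 1, rfl, fun j => rfl⟩
  have hnb : ∀ j, n j = f j (b j) := by
    intro j
    cases j with
    | zero => rw [hn0, hb0]
    | succ j => rw [hn, hb]
  have hn1 : ∀ j, 1 ≤ n j := by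
    intro j
    rw [hnb]
    refine le_trans ?_ (hf1 j (b j))
    cases j with
    | zero => rw [hb0]
    | succ j => rw [hb]; omega
  have hz : Tendsto (fun j : ℕ => (1 : ℝ) / (j + 1)) atTop (𝓝 0) := tendsto_one_div_add_atTop_nhds_zero_nat
  refine ⟨n, fun j => g j (b j), strictMono_nat_of_lt_succ fun j => ?_, fun j => hg1 _ _, ?_, ?_, fun j => ?_⟩
  · rw [hn]
    exact Nat.lt_of_succ_le (hf1 (j + 1) (n j + 1))
  · exact squeeze_zero (fun j => (hg1 _ _).le) (fun j => hg2 j (b j)) hz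
  · refine squeeze_zero (fun j => mul_nonneg (hg1 _ _).le (Real.log_nonneg (by exact_mod_cast hn1 j))) (fun j => ?_) hz
    rw [hnb]
    exact hg3 j (b j)
  · rw [hnb]
    exact ⟨hg4 _ _, hg5 _ _⟩

/-- the dichotomy: fast decay or good indices -/
theorem decay_or_good {m : ℕ → ℝ} (hm : ∀ k, 0 < m k) {M : ℝ} (hM : ∀ k, m k ≤ M) :
    (∃ c : ℝ, 0 < c ∧ ∀ᶠ k : ℕ in atTop, m k ≤ Real.exp (-(c * k / Real.log k))) ∨
      ∃ (n : ℕ → ℕ) (ε : ℕ → ℝ), StrictMono n ∧ (∀ j, 0 < ε j) ∧ Tendsto ε atTop (𝓝 0) ∧ Tendsto (fun j => ε j * Real.log (n j)) atTop (𝓝 0) ∧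
        ∀ j, Real.exp (-(ε j * n j)) ≤ m (n j) ∧ ∀ i : ℕ, m i ≤ m (n j) * Real.exp (ε j * |(i : ℝ) - n j|) := by
  by_cases h : ∀ η : ℝ, 0 < η → ∃ᶠ N : ℕ in atTop, Real.exp (-(η * N / Real.log N)) < m N
  · exact Or.inr (good_seq hm hM h)
  · push Not at h
    obtain ⟨c, hc, h1⟩ := h
    exact Or.inl ⟨c, hc, h1⟩

end Pool.Agent.SDR
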