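import Mathlib

/-!
# SDR HarmD: the complex gradient `2 ∂u` of a harmonic function
-/

set_option autoImplicit false

open Topology Filter Metric Complex InnerProductSpace

noncomputable section

namespace Pool.Agent.SDR

/-- `2 ∂u` -/
def gc (u : ℂ → ℝ) (z : ℂ) : ℂ := fderiv ℝ u z 1 - I * fderiv ℝ u z I

theorem gc_congr {u v : ℂ → ℝ} {z : ℂ} (h : u =ᶠ[𝓝 z] v) : gc u z = gc v z := by
  unfold gc
  rw [h.fderiv_eq]

theorem fderiv_eq_gc {u : ℂ → ℝ} {z : ℂ} (v : ℂ) : fderiv ℝ u z v = (gc u z * v).re := by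
  have hv : v = v.re • (1 : ℂ) + v.im • (I : ℂ) := by
    apply Complex.ext <;> simp
  conv_lhs => rw [hv]
  rw [map_add, map_smul, map_smul]
  unfold gc
  simp [Complex.mul_re]
  ring

theorem analyticAt_gc {u : ℂ → ℝ} {z : ℂ} (h : HarmonicAt u z) : AnalyticAt ℂ (gc u) z :=
  HarmonicAt.analyticAt_complex_partial h

theorem gc_re {F : ℂ → ℂ} {z : ℂ} (hF : AnalyticAt ℂ F z) : gc (fun w => (F w).re) z = deriv F z := by
  have h1 : HasDerivAt F (deriv F z) z := hF.differentiableAt.hasDerivAt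
  have h2 : HasFDerivAt (fun w => (F w).re) (reCLM.comp ((ContinuousLinearMap.toSpanSingleton ℂ (deriv F z)).restrictScalars ℝ)) z :=
    reCLM.hasFDerivAt.comp z (h1.hasFDerivAt.restrictScalars ℝ)
  unfold gc
  rw [h2.fderiv]
  apply Complex.ext <;> simp

theorem gc_sub {u v : ℂ → ℝ} {z : ℂ} (hu : DifferentiableAt ℝ u z) (hv : DifferentiableAt ℝ v z) :
    gc (fun w => u w - v w) z = gc u z - gc v z := by
  have h : fderiv ℝ (fun w => u w - v w) z = fderiv ℝ u z - fderiv ℝ v z := fderiv_fun_sub hu hv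
  unfold gc
  rw [h]
  simp
  ring

theorem HarmonicAt.differentiableAt' {u : ℂ → ℝ} {z : ℂ} (h : HarmonicAt u z) : DifferentiableAt ℝ u z :=
  h.1.differentiableAt two_ne_zero

/-- gradient estimate -/
theorem norm_gc_le {u : ℂ → ℝ} {z : ℂ} {r ε : ℝ} (hr : 0 < r) (hε : 0 < ε) (hu : HarmonicOnNhd u (ball z r))
    (hb : ∀ w ∈ ball z r, |u w| ≤ ε) : ‖gc u z‖ ≤ 16 * ε / r := by
  obtain ⟨F, hF, hre⟩ := InnerProductSpace.HarmonicOnNhd.exists_analyticOnNhd_ball_re_eq hu
  have hz : z ∈ ball z r := mem_ball_self hr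
  have e1 : gc u z = deriv F z := by
    rw [← gc_re (hF z hz)]
    apply gc_congr
    filter_upwards [ball_mem_nhds z hr] with w hw
    exact (hre hw).symm
  rw [e1]
  -- Cauchy for `exp (F / ε)`
  set G : ℂ → ℂ := fun w => exp (F w / ε) with hG
  have hGd : DifferentiableOn ℂ G (ball z r) := fun w hw =>
    ((hF w hw).differentiableAt.div_const _).cexp.differentiableWithinAt
  have hnorm : ∀ w ∈ ball z r, ‖G w‖ = Real.exp (u w / ε) := by
    intro w hw
    rw [hG]
    simp only [norm_exp]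
    congr 1
    have h2 : (F w).re = u w := hre hw
    rw [← h2]
    simp
  have hGb : ∀ w ∈ sphere z (r / 2), ‖G w‖ ≤ Real.exp 1 := by
    intro w hw
    have hw' : w ∈ ball z r := by
      rw [mem_ball, mem_sphere.1 hw]
      linarith
    rw [hnorm w hw']
    apply Real.exp_le_exp.2
    rw [div_le_one hε]
    exact (le_abs_self _).trans (hb w hw')
  have hcl : DiffContOnCl ℂ G (ball z (r / 2)) := by
    apply DifferentiableOn.diffContOnCl
    apply hGd.mono
    refine (closure_ball_subset_closedBall).trans (closedBall_subset_ball (by linarith))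
  have h3 : ‖deriv G z‖ ≤ Real.exp 1 / (r / 2) := norm_deriv_le_of_forall_mem_sphere_norm_le (by linarith) hcl hGb
  have h4 : deriv G z = G z * (deriv F z / ε) := by
    have := ((hF z hz).differentiableAt.hasDerivAt.div_const (ε : ℂ)).cexp
    exact this.deriv
  rw [h4, norm_mul, hnorm z hz, norm_div] at h3
  have h5 : Real.exp (-1) ≤ Real.exp (u z / ε) := by
    apply Real.exp_le_exp.2
    rw [le_div_iff₀ hε]
    have := neg_le_of_abs_le (hb z hz)
    linarith
  have h6 : Real.exp 1 < 2.7182818286 := Real.exp_one_lt_d9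
  have h7 : ‖(ε : ℂ)‖ = ε := by rw [norm_real, Real.norm_of_nonneg hε.le]
  rw [h7] at h3
  have h8 : Real.exp (-1) * (‖deriv F z‖ / ε) ≤ Real.exp 1 / (r / 2) :=
    (mul_le_mul_of_nonneg_right h5 (by positivity)).trans h3
  have h9 : ‖deriv F z‖ / ε ≤ Real.exp 1 * (Real.exp 1 / (r / 2)) := by
    have h10 : Real.exp 1 * Real.exp (-1) = 1 := by rw [← Real.exp_add]; simp
    calc ‖deriv F z‖ / ε = Real.exp 1 * (Real.exp (-1) * (‖deriv F z‖ / ε)) := by rw [← mul_assoc, h10, one_mul]
      _ ≤ _ := mul_le_mul_of_nonneg_left h8 (Real.exp_pos _).le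
  rw [div_le_iff₀ hε] at h9
  have h11 : Real.exp 1 * (Real.exp 1 / (r / 2)) * ε = (2 * Real.exp 1 * Real.exp 1) * ε / r := by
    field_simp
  rw [h11] at h9
  refine h9.trans ?_
  apply div_le_div_of_nonneg_right _ hr.le
  apply mul_le_mul_of_nonneg_right _ hε.le
  nlinarith [Real.exp_pos 1]

/-- a nonnegative harmonic function on a ball with a zero vanishes -/
theorem eq_zero_of_nonneg {u : ℂ → ℝ} {z : ℂ} {r : ℝ} (hu : HarmonicOnNhd u (ball z r)) (h0 : ∀ w ∈ ball z r, 0 ≤ u w) {w₀ : ℂ}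
    (hw₀ : w₀ ∈ ball z r) (hz : u w₀ = 0) : ∀ w ∈ ball z r, u w = 0 := by
  obtain ⟨F, hF, hre⟩ := InnerProductSpace.HarmonicOnNhd.exists_analyticOnNhd_ball_re_eq hu
  have h1 := (hF w₀ hw₀).eventually_constant_or_nhds_le_map_nhds
  have hFe : ∀ᶠ w in 𝓝 w₀, F w = F w₀ := by
    rcases h1 with h1 | h1
    · exact h1
    · exfalso
      have h2 : ∀ᶠ y in 𝓝 (F w₀), 0 ≤ y.re := by
        apply h1
        rw [mem_map]
        filter_upwards [isOpen_ball.mem_nhds hw₀] with w hw
        show 0 ≤ (F w).re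
        have : (F w).re = u w := hre hw
        rw [this]
        exact h0 w hw
      have h3 : (F w₀).re = 0 := by
        have : (F w₀).re = u w₀ := hre hw₀
        rw [this, hz]
      have h4 : Tendsto (fun t : ℝ => F w₀ - t) (𝓝[>] 0) (𝓝 (F w₀)) := by
        have h5 : Continuous fun t : ℝ => F w₀ - t := by fun_prop
        have h6 := h5.tendsto 0
        simp only [ofReal_zero, sub_zero] at h6
        exact h6.mono_left nhdsWithin_le_nhds
      obtain ⟨t, ht1, ht2⟩ := ((h4.eventually h2).and self_mem_nhdsWithin).exists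
      have ht3 : 0 < t := ht2
      rw [sub_re, h3, ofReal_re] at ht1
      linarith
  have h2 : Set.EqOn F (fun _ => F w₀) (ball z r) :=
    hF.eqOn_of_preconnected_of_eventuallyEq analyticOnNhd_const (convex_ball z r).isPreconnected hw₀ hFe
  intro w hw
  have e1 : (F w).re = u w := hre hw
  have e2 : (F w₀).re = u w₀ := hre hw₀
  rw [← e1, h2 hw, e2, hz]

/-- a harmonic function whose gradient is constant is affine -/
theorem affine_of_gc {u : ℂ → ℝ} {s : Set ℂ} (hs : IsOpen s) (hc : IsPreconnected s) (hu : HarmonicOnNhd u s) {κ : ℂ}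
    (hk : ∀ z ∈ s, gc u z = κ) {z₀ : ℂ} (hz₀ : z₀ ∈ s) : ∀ z ∈ s, u z = u z₀ + (κ * (z - z₀)).re := by
  have hd : DifferentiableOn ℝ (fun z => u z - (κ * (z - z₀)).re) s := by
    intro z hz
    have h1 : DifferentiableAt ℝ u z := HarmonicAt.differentiableAt' (hu z hz)
    have h2 : DifferentiableAt ℝ (fun z => (κ * (z - z₀)).re) z := by fun_prop
    exact (h1.sub h2).differentiableWithinAt
  have h0 : ∀ z ∈ s, fderiv ℝ (fun z => u z - (κ * (z - z₀)).re) z = 0 := by
    intro z hz
    have h1 : DifferentiableAt ℝ u z := HarmonicAt.differentiableAt' (hu z hz)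
    have h2 : HasFDerivAt (fun z => (κ * (z - z₀)).re) (reCLM.comp ((ContinuousLinearMap.toSpanSingleton ℂ κ).restrictScalars ℝ)) z := by
      have h3 : HasDerivAt (fun z => κ * (z - z₀)) κ z := by
        simpa using ((hasDerivAt_id z).sub_const z₀).const_mul κ
      exact reCLM.hasFDerivAt.comp z (h3.hasFDerivAt.restrictScalars ℝ)
    rw [fderiv_fun_sub h1 h2.differentiableAt, h2.fderiv]
    ext v
    simp only [sub_apply, zero_apply]
    rw [fderiv_eq_gc, hk z hz]
    simp [mul_comm]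
  intro z hz
  have h1 := hs.is_const_of_fderiv_eq_zero hc hd (fun w hw => h0 w hw) hz hz₀
  have h2 : u z - (κ * (z - z₀)).re = u z₀ - (κ * (z₀ - z₀)).re := h1
  rw [sub_self, mul_zero, zero_re, sub_zero] at h2
  linarith

end Pool.Agent.SDR
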