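import Pool.Agent.SDR.HarmD

/-!
# SDR Liou: the Liouville theorem for blow-downs

`𝓤` is a compact family, invariant under translations and scalings, of tuples `U` of nonnegative functions on `ℂ` which are harmonic outside the common
zeros and satisfy an equation `‖P (2 ∂U_1, 2 ∂U_2)‖ = 1` there.  Then the common zeros form a line and the functions are linear on both sides.
-/

set_option autoImplicit false

open Topology Filter Metric Complex InnerProductSpace

noncomputable section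

namespace Pool.Agent.SDR

variable {ι : Type} [Fintype ι] {Cr : Type}

/-- the sum of the functions -/
def tot (U : ι → ℂ → ℝ) (z : ℂ) : ℝ := ∑ i, U i z

/-- the homogeneous polynomial with the coefficients `c` -/
def hp (c : ℕ → ℂ) (m : ℕ) (x y : ℂ) : ℂ := ∑ l ∈ Finset.range (m + 1), c l * x ^ (m - l) * y ^ l

theorem hp_smul (c : ℕ → ℂ) (m : ℕ) (a x y : ℂ) : hp c m (a * x) (a * y) = a ^ m * hp c m x y := by
  unfold hp
  rw [Finset.mul_sum]
  apply Finset.sum_congr rfl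
  intro l hl
  have hl' : l ≤ m := Nat.lt_succ_iff.1 (Finset.mem_range.1 hl)
  have e : a ^ m = a ^ (m - l) * a ^ l := by rw [← pow_add, Nat.sub_add_cancel hl']
  rw [e, mul_pow, mul_pow]
  ring

theorem continuous_hp (c : ℕ → ℂ) (m : ℕ) : Continuous fun p : ℂ × ℂ => hp c m p.1 p.2 := by
  unfold hp
  fun_prop

theorem hp_zero (c : ℕ → ℂ) {m : ℕ} (hm : 1 ≤ m) : hp c m 0 0 = 0 := by
  have := hp_smul c m 0 0 0
  rw [zero_mul, zero_pow (by omega), zero_mul] at this
  exact this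

theorem analyticAt_hp {c : ℕ → ℂ} {m : ℕ} {f g : ℂ → ℂ} {z : ℂ} (hf : AnalyticAt ℂ f z) (hg : AnalyticAt ℂ g z) :
    AnalyticAt ℂ (fun w => hp c m (f w) (g w)) z := by
  unfold hp
  fun_prop

/-- The hypotheses on a blow-down. -/
structure Blow (P : Cr → ℕ → ℂ) (m : ℕ) (e₁ e₂ : Cr → ι) (c C : ℝ) (U : ι → ℂ → ℝ) : Prop where
  cont : ∀ i, Continuous (U i)
  nonneg : ∀ i z, 0 ≤ U i z
  zero : ∃ z, tot U z = 0
  thin : interior {z | tot U z = 0} = ∅
  low : ∀ z r, 0 < r → (∀ w ∈ ball z r, 0 < tot U w) → c * r ≤ tot U z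
  harm : ∀ z, 0 < tot U z → ∀ i, HarmonicAt (U i) z
  bd : ∀ z, 0 < tot U z → ∀ i, ‖gc (U i) z‖ ≤ C
  type : ∀ z, 0 < tot U z → ∃ ν, (∀ i, i ≠ e₁ ν → i ≠ e₂ ν → U i z = 0) ∧
    ∀ᶠ w in 𝓝 z, ‖hp (P ν) m (gc (U (e₁ ν)) w) (gc (U (e₂ ν)) w)‖ = 1

/-- The family: compact, invariant under translations and scalings. -/
structure BlowFam (P : Cr → ℕ → ℂ) (m : ℕ) (e₁ e₂ : Cr → ι) (c C : ℝ) (𝓤 : Set (ι → ℂ → ℝ)) : Prop where
  blow : ∀ U ∈ 𝓤, Blow P m e₁ e₂ c C U
  trans : ∀ U ∈ 𝓤, ∀ (a : ℂ) (r : ℝ), 0 < r → (fun i w => U i (a + r * w) / r) ∈ 𝓤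
  cpt : ∀ U : ℕ → ι → ℂ → ℝ, (∀ n, U n ∈ 𝓤) → (∀ n, ∃ z, ‖z‖ ≤ 1 ∧ tot (U n) z = 0) →
    ∃ (φ : ℕ → ℕ) (V : ι → ℂ → ℝ), StrictMono φ ∧ V ∈ 𝓤 ∧ ∀ i, TendstoLocallyUniformly (fun n => U (φ n) i) (V i) atTop

variable {P : Cr → ℕ → ℂ} {m : ℕ} {e₁ e₂ : Cr → ι} {c C : ℝ} {U : ι → ℂ → ℝ} {𝓤 : Set (ι → ℂ → ℝ)}

/-! ## generalities -/

theorem eventually_const_of_norm {f : ℂ → ℂ} {z : ℂ} (hf : AnalyticAt ℂ f z) {a : ℝ} (ha : ∀ᶠ w in 𝓝 z, ‖f w‖ = a) :
    ∀ᶠ w in 𝓝 z, f w = f z := by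
  rcases hf.eventually_constant_or_nhds_le_map_nhds with h | h
  · exact h
  · exfalso
    have h2 : ∀ᶠ y in 𝓝 (f z), ‖y‖ = a := h (by rw [mem_map]; exact ha)
    have h3 : Tendsto (fun t : ℝ => (1 + (t : ℂ)) * f z + t) (𝓝[>] 0) (𝓝 (f z)) := by
      have h5 : Continuous fun t : ℝ => (1 + (t : ℂ)) * f z + t := by fun_prop
      have h6 := h5.tendsto 0
      simp only [ofReal_zero, add_zero, one_mul] at h6
      exact h6.mono_left nhdsWithin_le_nhds
    have h4 : Tendsto (fun t : ℝ => (1 + (t : ℂ)) * f z) (𝓝[>] 0) (𝓝 (f z)) := by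
      have h5 : Continuous fun t : ℝ => (1 + (t : ℂ)) * f z := by fun_prop
      have h6 := h5.tendsto 0
      simp only [ofReal_zero, add_zero, one_mul] at h6
      exact h6.mono_left nhdsWithin_le_nhds
    have haz : ‖f z‖ = a := ha.self_of_nhds
    obtain ⟨t, ⟨ht1, ht2⟩, ht3⟩ := (((h3.eventually h2).and (h4.eventually h2)).and self_mem_nhdsWithin).exists
    have ht : 0 < t := ht3
    rw [norm_mul, haz] at ht2
    have h7 : ‖(1 : ℂ) + t‖ = 1 + t := by
      have : (1 : ℂ) + t = ((1 + t : ℝ) : ℂ) := by push_cast; ring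
      rw [this, norm_real, Real.norm_of_nonneg (by linarith)]
    rw [h7] at ht2
    have h8 : a = 0 := by nlinarith
    have h9 : f z = 0 := by rw [← norm_eq_zero, haz, h8]
    rw [h9, mul_zero, zero_add, norm_real, Real.norm_of_nonneg ht.le, h8] at ht1
    linarith

theorem eventually_const_of_real {f : ℂ → ℂ} {z : ℂ} (hf : AnalyticAt ℂ f z) (ha : ∀ᶠ w in 𝓝 z, (f w).im = 0) :
    ∀ᶠ w in 𝓝 z, f w = f z := by
  rcases hf.eventually_constant_or_nhds_le_map_nhds with h | h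
  · exact h
  · exfalso
    have h2 : ∀ᶠ y in 𝓝 (f z), y.im = 0 := h (by rw [mem_map]; exact ha)
    have h3 : Tendsto (fun t : ℝ => f z + t * I) (𝓝[>] 0) (𝓝 (f z)) := by
      have h5 : Continuous fun t : ℝ => f z + t * I := by fun_prop
      have h6 := h5.tendsto 0
      simp only [ofReal_zero, zero_mul, add_zero] at h6
      exact h6.mono_left nhdsWithin_le_nhds
    obtain ⟨t, ht1, ht3⟩ := ((h3.eventually h2).and self_mem_nhdsWithin).exists
    have ht : 0 < t := ht3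
    have := ha.self_of_nhds
    simp [this] at ht1
    linarith

namespace Blow

theorem cont_tot (h : Blow P m e₁ e₂ c C U) : Continuous (tot U) := by
  unfold tot
  exact continuous_finsetSum _ fun i _ => h.cont i

theorem tot_nonneg (h : Blow P m e₁ e₂ c C U) (z : ℂ) : 0 ≤ tot U z := Finset.sum_nonneg fun i _ => h.nonneg i z

theorem le_tot (h : Blow P m e₁ e₂ c C U) (i : ι) (z : ℂ) : U i z ≤ tot U z :=
  Finset.single_le_sum (f := fun i => U i z) (fun i _ => h.nonneg i z) (Finset.mem_univ i)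

theorem eq_zero (h : Blow P m e₁ e₂ c C U) {z : ℂ} (hz : tot U z = 0) (i : ι) : U i z = 0 :=
  le_antisymm ((h.le_tot i z).trans hz.le) (h.nonneg i z)

theorem isOpen_pos (h : Blow P m e₁ e₂ c C U) : IsOpen {z | 0 < tot U z} := isOpen_lt continuous_const h.cont_tot

end Blow

/-- the component of `z₀` in the set where `U` is positive -/
def comp (U : ι → ℂ → ℝ) (z₀ : ℂ) : Set ℂ := connectedComponentIn {z | 0 < tot U z} z₀

namespace Blow

theorem isOpen_comp (h : Blow P m e₁ e₂ c C U) (z₀ : ℂ) : IsOpen (comp U z₀) := h.isOpen_pos.connectedComponentIn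

theorem pos_of_comp (_h : Blow P m e₁ e₂ c C U) {z₀ z : ℂ} (hz : z ∈ comp U z₀) : 0 < tot U z :=
  connectedComponentIn_subset {z | 0 < tot U z} z₀ hz

theorem mem_comp (_h : Blow P m e₁ e₂ c C U) {z₀ : ℂ} (hz : 0 < tot U z₀) : z₀ ∈ comp U z₀ := mem_connectedComponentIn hz

theorem pre_comp (U : ι → ℂ → ℝ) (z₀ : ℂ) : IsPreconnected (comp U z₀) := isPreconnected_connectedComponentIn

theorem closure_comp (h : Blow P m e₁ e₂ c C U) {z₀ z : ℂ} (hz : z ∈ closure (comp U z₀)) (hz' : 0 < tot U z) : z ∈ comp U z₀ := by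
  have h1 : IsOpen (comp U z) := h.isOpen_comp z
  have h2 : z ∈ comp U z := h.mem_comp hz'
  obtain ⟨y, hy1, hy2⟩ := mem_closure_iff.1 hz _ h1 h2
  have e1 : comp U z = comp U y := connectedComponentIn_eq hy1
  have e2 : comp U z₀ = comp U y := connectedComponentIn_eq hy2
  rw [e2, ← e1]
  exact h2

theorem zero_of_boundary (h : Blow P m e₁ e₂ c C U) {z₀ z : ℂ} (hz : z ∈ closure (comp U z₀)) (hz' : z ∉ comp U z₀) : tot U z = 0 := by
  by_contra hne
  exact hz' (h.closure_comp hz (lt_of_le_of_ne (h.tot_nonneg z) (Ne.symm hne)))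

theorem exists_boundary (h : Blow P m e₁ e₂ c C U) {z₀ : ℂ} (hz₀ : 0 < tot U z₀) : ∃ z, z ∈ closure (comp U z₀) ∧ z ∉ comp U z₀ := by
  by_contra hcon
  push Not at hcon
  obtain ⟨z₁, hz₁⟩ := h.zero
  have hcl : IsClosed (comp U z₀) := isClosed_of_closure_subset fun z hz => hcon z hz
  have huniv : comp U z₀ = Set.univ := by
    have : IsClopen (comp U z₀) := ⟨hcl, h.isOpen_comp z₀⟩
    exact this.eq_univ ⟨z₀, h.mem_comp hz₀⟩
  have : z₁ ∈ comp U z₀ := by rw [huniv]; trivial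
  have := h.pos_of_comp this
  linarith

/-- on a component each function vanishes or is positive -/
theorem zero_or_pos (h : Blow P m e₁ e₂ c C U) (z₀ : ℂ) (i : ι) : (∀ z ∈ comp U z₀, U i z = 0) ∨ ∀ z ∈ comp U z₀, 0 < U i z := by
  by_cases hex : ∃ z ∈ comp U z₀, U i z = 0
  · left
    obtain ⟨z₁, hz₁, h0⟩ := hex
    have hloc : ∀ z ∈ comp U z₀, U i z = 0 → ∀ᶠ w in 𝓝 z, U i w = 0 := by
      intro z hz hzz
      obtain ⟨r, hr, hb⟩ := Metric.isOpen_iff.1 (h.isOpen_comp z₀) z hz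
      have hH : HarmonicOnNhd (U i) (ball z r) := fun w hw => h.harm w (h.pos_of_comp (hb hw)) i
      have := eq_zero_of_nonneg hH (fun w _ => h.nonneg i w) (mem_ball_self hr) hzz
      filter_upwards [ball_mem_nhds z hr] with w hw
      exact this w hw
    have hopen : IsOpen ({z | U i z = 0} ∩ comp U z₀) := by
      rw [isOpen_iff_mem_nhds]
      rintro z ⟨hz1, hz2⟩
      filter_upwards [hloc z hz2 hz1, (h.isOpen_comp z₀).mem_nhds hz2] with w hw1 hw2
      exact ⟨hw1, hw2⟩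
    have hcl : closure ({z | U i z = 0} ∩ comp U z₀) ∩ comp U z₀ ⊆ {z | U i z = 0} ∩ comp U z₀ := by
      rintro z ⟨hz1, hz2⟩
      refine ⟨?_, hz2⟩
      have h1 : IsClosed {z | U i z = 0} := isClosed_eq (h.cont i) continuous_const
      exact h1.closure_subset_iff.2 Set.inter_subset_left hz1
    have := (pre_comp U z₀).subset_of_closure_inter_subset hopen ⟨z₁, hz₁, h0, hz₁⟩ hcl
    exact fun z hz => (this hz).1
  · right
    push Not at hex
    exact fun z hz => lt_of_le_of_ne (h.nonneg i z) (Ne.symm (hex z hz))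

/-- if one of the functions is affine on a component, then the component is a half plane -/
theorem half_plane (h : Blow P m e₁ e₂ c C U) {z₀ : ℂ} (hz₀ : 0 < tot U z₀) {i : ι} {κ : ℂ} {b : ℝ}
    (hU : ∀ z ∈ comp U z₀, U i z = (κ * z).re + b) (hpos : ∀ z ∈ comp U z₀, 0 < U i z) : comp U z₀ = {z | 0 < (κ * z).re + b} := by
  apply Set.Subset.antisymm
  · intro z hz
    show 0 < (κ * z).re + b
    rw [← hU z hz]
    exact hpos z hz
  · have hpre : IsPreconnected {z : ℂ | 0 < (κ * z).re + b} := by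
      apply Convex.isPreconnected
      intro x hx y hy s t hs ht hst
      have hx' : 0 < (κ * x).re + b := hx
      have hy' : 0 < (κ * y).re + b := hy
      show 0 < (κ * (s • x + t • y)).re + b
      have e : (κ * (s • x + t • y)).re + b = s * ((κ * x).re + b) + t * ((κ * y).re + b) := by
        have : b = (s + t) * b := by rw [hst, one_mul]
        conv_lhs => rw [this]
        simp only [real_smul, mul_re, add_re, add_im, ofReal_re, ofReal_im, mul_im]
        ring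
      rw [e]
      rcases hs.lt_or_eq with hs' | hs'
      · have : 0 ≤ t * ((κ * y).re + b) := by positivity
        have : 0 < s * ((κ * x).re + b) := by positivity
        linarith
      · rw [← hs'] at hst ⊢
        rw [zero_add] at hst
        rw [hst]
        simpa using hy'
    apply hpre.subset_of_closure_inter_subset (h.isOpen_comp z₀)
    · refine ⟨z₀, ?_, h.mem_comp hz₀⟩
      show 0 < (κ * z₀).re + b
      rw [← hU z₀ (h.mem_comp hz₀)]
      exact hpos z₀ (h.mem_comp hz₀)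
    · rintro z ⟨hz1, hz2⟩
      by_contra hz3
      have h1 := h.eq_zero (h.zero_of_boundary hz1 hz3) i
      have h2 : U i z = (κ * z).re + b := by
        have hcl : IsClosed {z | U i z = (κ * z).re + b} := isClosed_eq (h.cont i) (by fun_prop)
        exact hcl.closure_subset_iff.2 (fun w hw => hU w hw) hz1
      have hz2' : 0 < (κ * z).re + b := hz2
      rw [← h2, h1] at hz2'
      exact lt_irrefl _ hz2'

theorem analytic_gc (h : Blow P m e₁ e₂ c C U) {z₀ z : ℂ} (hz : z ∈ comp U z₀) (i : ι) : AnalyticAt ℂ (gc (U i)) z :=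
  analyticAt_gc (h.harm z (h.pos_of_comp hz) i)

/-- a constant gradient near a point is constant on the component -/
theorem gc_const (h : Blow P m e₁ e₂ c C U) {z₀ z₁ : ℂ} (hz₁ : z₁ ∈ comp U z₀) {i : ι} {κ : ℂ} (hk : ∀ᶠ w in 𝓝 z₁, gc (U i) w = κ) :
    ∀ z ∈ comp U z₀, gc (U i) z = κ := by
  have h1 : AnalyticOnNhd ℂ (gc (U i)) (comp U z₀) := fun z hz => h.analytic_gc hz i
  exact h1.eqOn_of_preconnected_of_eventuallyEq analyticOnNhd_const (pre_comp U z₀) hz₁ hk

/-- the equation holds on the whole component -/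
theorem norm_hp (h : Blow P m e₁ e₂ c C U) {z₀ z₁ : ℂ} (hz₁ : z₁ ∈ comp U z₀) {ν : Cr}
    (hk : ∀ᶠ w in 𝓝 z₁, ‖hp (P ν) m (gc (U (e₁ ν)) w) (gc (U (e₂ ν)) w)‖ = 1) :
    ∀ z ∈ comp U z₀, ‖hp (P ν) m (gc (U (e₁ ν)) z) (gc (U (e₂ ν)) z)‖ = 1 := by
  have h1 : AnalyticOnNhd ℂ (fun z => hp (P ν) m (gc (U (e₁ ν)) z) (gc (U (e₂ ν)) z)) (comp U z₀) := fun z hz =>
    analyticAt_hp (h.analytic_gc hz _) (h.analytic_gc hz _)
  have h2 := eventually_const_of_norm (h1 z₁ hz₁) hk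
  have h3 := h1.eqOn_of_preconnected_of_eventuallyEq analyticOnNhd_const (pre_comp U z₀) hz₁ h2
  intro z hz
  have h4 : hp (P ν) m (gc (U (e₁ ν)) z) (gc (U (e₂ ν)) z) = hp (P ν) m (gc (U (e₁ ν)) z₁) (gc (U (e₂ ν)) z₁) := h3 hz
  rw [h4]
  exact hk.self_of_nhds

/-- if the two gradients are proportional near a point, the component is a half plane and the ratio is nonnegative -/
theorem half_of_ratio (h : Blow P m e₁ e₂ c C U) (hm : 1 ≤ m) {z₀ : ℂ} (hz₀ : 0 < tot U z₀) {ν : Cr}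
    (hk : ∀ᶠ w in 𝓝 z₀, ‖hp (P ν) m (gc (U (e₁ ν)) w) (gc (U (e₂ ν)) w)‖ = 1) (h1 : 0 < U (e₁ ν) z₀) {t : ℂ}
    (ht : ∀ᶠ w in 𝓝 z₀, gc (U (e₂ ν)) w = t * gc (U (e₁ ν)) w) :
    ∃ (κ : ℂ) (b s : ℝ), κ ≠ 0 ∧ t = (s : ℂ) ∧ 0 ≤ s ∧ comp U z₀ = {z | 0 < (κ * z).re + b} ∧
      (∀ z ∈ comp U z₀, U (e₁ ν) z = (κ * z).re + b) ∧ ∀ z ∈ comp U z₀, U (e₂ ν) z = s * ((κ * z).re + b) := by
  have hz : z₀ ∈ comp U z₀ := h.mem_comp hz₀
  have hn : ∀ᶠ w in 𝓝 z₀, ‖gc (U (e₁ ν)) w ^ m‖ * ‖hp (P ν) m 1 t‖ = 1 := by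
    filter_upwards [hk, ht] with w hw1 hw2
    rw [hw2] at hw1
    have e : hp (P ν) m (gc (U (e₁ ν)) w) (t * gc (U (e₁ ν)) w) = gc (U (e₁ ν)) w ^ m * hp (P ν) m 1 t := by
      rw [← hp_smul, mul_one, mul_comm t]
    rw [e, norm_mul] at hw1
    exact hw1
  have hp0 : ‖hp (P ν) m 1 t‖ ≠ 0 := by
    intro h0
    have := hn.self_of_nhds
    rw [h0, mul_zero] at this
    exact zero_ne_one this
  have hn2 : ∀ᶠ w in 𝓝 z₀, ‖gc (U (e₁ ν)) w‖ = ‖gc (U (e₁ ν)) z₀‖ := by
    filter_upwards [hn] with w hw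
    have h2 := hn.self_of_nhds
    rw [← hw] at h2
    have h3 := mul_right_cancel₀ hp0 h2
    rw [norm_pow, norm_pow] at h3
    exact ((pow_left_inj₀ (norm_nonneg _) (norm_nonneg _) (by omega)).1 h3).symm
  have hc1 := h.gc_const hz (eventually_const_of_norm (h.analytic_gc hz _) hn2)
  set κ := gc (U (e₁ ν)) z₀ with hκ
  have hκ0 : κ ≠ 0 := by
    intro h0
    have := hn.self_of_nhds
    rw [← hκ, h0, zero_pow (by omega), norm_zero, zero_mul] at this
    exact zero_ne_one this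
  have hc2 : ∀ z ∈ comp U z₀, gc (U (e₂ ν)) z = t * κ := by
    apply h.gc_const hz
    filter_upwards [ht, (h.isOpen_comp z₀).mem_nhds hz] with w hw hw2
    rw [hw, hc1 w hw2]
  have hH : ∀ i, HarmonicOnNhd (U i) (comp U z₀) := fun i z hz => h.harm z (h.pos_of_comp hz) i
  have ha1 := affine_of_gc (h.isOpen_comp z₀) (pre_comp U z₀) (hH _) hc1 hz
  have ha2 := affine_of_gc (h.isOpen_comp z₀) (pre_comp U z₀) (hH _) hc2 hz
  have hpos : ∀ z ∈ comp U z₀, 0 < U (e₁ ν) z := by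
    rcases h.zero_or_pos z₀ (e₁ ν) with h2 | h2
    · rw [h2 z₀ hz] at h1
      exact absurd h1 (lt_irrefl _)
    · exact h2
  set b : ℝ := U (e₁ ν) z₀ - (κ * z₀).re with hb
  have hU1 : ∀ z ∈ comp U z₀, U (e₁ ν) z = (κ * z).re + b := by
    intro z hz'
    rw [ha1 z hz', hb, mul_sub, sub_re]
    ring
  have hhp := h.half_plane hz₀ hU1 hpos
  -- `U (e₂ ν)` on the boundary line
  set b' : ℝ := U (e₂ ν) z₀ - (t * κ * z₀).re with hb'
  have hU2 : ∀ z ∈ closure (comp U z₀), U (e₂ ν) z = (t * κ * z).re + b' := by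
    have hcl : IsClosed {z | U (e₂ ν) z = (t * κ * z).re + b'} := isClosed_eq (h.cont _) (by fun_prop)
    apply hcl.closure_subset_iff.2
    intro z hz'
    show U (e₂ ν) z = (t * κ * z).re + b'
    rw [ha2 z hz', hb', mul_sub, sub_re]
    ring
  have hline : ∀ z : ℂ, (κ * z).re + b = 0 → (t * κ * z).re + b' = 0 := by
    intro z hz'
    have hmem : z ∈ closure (comp U z₀) := by
      rw [hhp, mem_closure_iff_seq_limit]
      refine ⟨fun n => z + (1 / ((n : ℝ) + 1) : ℝ) * κ⁻¹, fun n => ?_, ?_⟩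
      · show 0 < (κ * (z + (1 / ((n : ℝ) + 1) : ℝ) * κ⁻¹)).re + b
        have e : κ * (z + (1 / ((n : ℝ) + 1) : ℝ) * κ⁻¹) = κ * z + (1 / ((n : ℝ) + 1) : ℝ) := by
          field_simp
        rw [e, add_re, ofReal_re]
        have : (0 : ℝ) < 1 / ((n : ℝ) + 1) := by positivity
        linarith
      · have h3 : Tendsto (fun n : ℕ => ((1 / ((n : ℝ) + 1) : ℝ) : ℂ)) atTop (𝓝 0) := by
          have := (continuous_ofReal.tendsto 0).comp tendsto_one_div_add_atTop_nhds_zero_nat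
          rw [ofReal_zero] at this
          exact this
        have h4 := (h3.mul_const κ⁻¹).const_add z
        simpa using h4
    have hnot : z ∉ comp U z₀ := by
      rw [hhp]
      show ¬ 0 < (κ * z).re + b
      rw [hz']
      exact lt_irrefl _
    rw [← hU2 z hmem]
    exact h.eq_zero (h.zero_of_boundary hmem hnot) _
  -- a point of the line and its direction
  set p : ℂ := -(b : ℂ) / κ with hp'
  have hp1 : (κ * p).re + b = 0 := by
    have : κ * p = -(b : ℂ) := by rw [hp']; field_simp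
    rw [this]
    simp
  have hp2 : (κ * (p + I / κ)).re + b = 0 := by
    have : κ * (p + I / κ) = κ * p + I := by field_simp
    rw [this, add_re, I_re, add_zero]
    exact hp1
  have l1 := hline _ hp1
  have l2 := hline _ hp2
  have e3 : t * κ * (p + I / κ) = t * κ * p + t * I := by field_simp
  rw [e3, add_re] at l2
  have him : t.im = 0 := by
    have : (t * I).re = 0 := by linarith
    simpa using this
  have hreal : t = ((t.re : ℝ) : ℂ) := by
    apply Complex.ext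
    · simp
    · simp [him]
  have e4 : ∀ z, (t * κ * z).re + b' = t.re * ((κ * z).re + b) := by
    intro z
    have e5 : ∀ y : ℂ, (t * κ * y).re = t.re * (κ * y).re := by
      intro y
      rw [hreal, mul_assoc, re_ofReal_mul, ofReal_re]
    rw [e5] at l1
    have e6 : (κ * p).re = -b := by linarith
    rw [e6] at l1
    rw [e5]
    linarith
  refine ⟨κ, b, t.re, hκ0, hreal, ?_, hhp, hU1, fun z hz' => ?_⟩
  · have h5 : 0 ≤ U (e₂ ν) z₀ := h.nonneg _ _
    rw [hU2 z₀ (subset_closure hz), e4, ← hU1 z₀ hz] at h5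
    by_contra hneg
    push Not at hneg
    nlinarith
  · rw [hU2 z (subset_closure hz'), e4]

end Blow

end Pool.Agent.SDR
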