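import Pool.Agent.H36.BP.WdA

/-!
# SDR Qn: quantitative nullness

A holomorphic disc which is close to the curve `Z = {R k = 0}` and has constant length for a form `Θ` which vanishes on the tangent vectors of `Z` (outside
finitely many points) is short.  Proof: Nullstellensatz on the phase space; near the exceptional points the disc is nearly constant.
-/

set_option autoImplicit false

open MvPolynomial Metric Filter Topology
open Pool.Agent.H36.BP (EN wd fs wd_le wd_inv)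

noncomputable section

namespace Pool.Agent.SDR

/-- quantitative Nullstellensatz on bounded sets -/
theorem ns_bound {σ ι T : Type*} [Finite σ] [Fintype ι] [Fintype T] (g : T → MvPolynomial σ ℂ) (p : ι → MvPolynomial σ ℂ)
    (h : ∀ t, ∀ y : σ → ℂ, (∀ i, eval y (p i) = 0) → eval y (g t) = 0) :
    ∃ M : ℕ, 1 ≤ M ∧ ∀ B : ℝ, ∃ C : ℝ, 0 ≤ C ∧ ∀ t, ∀ y : σ → ℂ, (∀ i, ‖y i‖ ≤ B) → ‖eval y (g t)‖ ^ M ≤ C * ∑ i, ‖eval y (p i)‖ := by
  classical
  have h1 : ∀ t, g t ∈ (Ideal.span (Set.range p)).radical := by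
    intro t
    rw [← vanishingIdeal_zeroLocus_eq_radical (K := ℂ)]
    rw [mem_vanishingIdeal_iff]
    intro y hy
    rw [mem_zeroLocus_iff] at hy
    simp only [aeval_eq_eval] at hy ⊢
    exact h t y fun i => hy (p i) (Ideal.subset_span ⟨i, rfl⟩)
  choose M hM using h1
  have h2 : ∀ t, g t ^ (∑ t, M t + 1) ∈ Ideal.span (Set.range p) := by
    intro t
    have hle : M t ≤ ∑ t, M t + 1 := (Finset.single_le_sum (f := M) (fun _ _ => Nat.zero_le _) (Finset.mem_univ t)).trans (Nat.le_succ _)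
    obtain ⟨k, hk⟩ := Nat.exists_eq_add_of_le hle
    rw [hk, pow_add]
    exact Ideal.mul_mem_right _ _ (hM t)
  simp only [Ideal.mem_span_range_iff_exists_fun] at h2
  choose c hc using h2
  refine ⟨∑ t, M t + 1, by omega, fun B => ?_⟩
  have := Fintype.ofFinite σ
  have hK : IsCompact {y : σ → ℂ | ∀ i, ‖y i‖ ≤ B} := by
    have : {y : σ → ℂ | ∀ i, ‖y i‖ ≤ B} = Set.pi Set.univ fun _ => closedBall (0 : ℂ) B := by
      ext y; simp [Set.mem_pi]
    rw [this]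
    exact isCompact_univ_pi fun _ => isCompact_closedBall _ _
  have h3 : ∀ t i, ∃ C : ℝ, ∀ y ∈ {y : σ → ℂ | ∀ i, ‖y i‖ ≤ B}, ‖eval y (c t i)‖ ≤ C := fun t i =>
    hK.exists_bound_of_continuousOn (MvPolynomial.continuous_eval (c t i)).continuousOn
  choose C hC using h3
  refine ⟨∑ t, ∑ i, |C t i|, Finset.sum_nonneg fun t _ => Finset.sum_nonneg fun i _ => abs_nonneg _, fun t y hy => ?_⟩
  rw [← norm_pow, ← map_pow, ← hc, map_sum]
  have h4 : ∀ i, |C t i| ≤ ∑ t, ∑ i, |C t i| := fun i =>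
    (Finset.single_le_sum (f := fun j => |C t j|) (fun j _ => abs_nonneg _) (Finset.mem_univ i)).trans
      (Finset.single_le_sum (f := fun t => ∑ j, |C t j|) (fun t _ => Finset.sum_nonneg fun j _ => abs_nonneg _) (Finset.mem_univ t))
  calc ‖∑ i, eval y (c t i * p i)‖ ≤ ∑ i, ‖eval y (c t i * p i)‖ := norm_sum_le _ _
    _ ≤ ∑ i, |C t i| * ‖eval y (p i)‖ := by
        apply Finset.sum_le_sum
        intro i _
        rw [map_mul, norm_mul]
        exact mul_le_mul_of_nonneg_right ((hC t i y hy).trans (le_abs_self _)) (norm_nonneg _)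
    _ ≤ ∑ i, (∑ t, ∑ j, |C t j|) * ‖eval y (p i)‖ := by
        apply Finset.sum_le_sum
        intro i _
        exact mul_le_mul_of_nonneg_right (h4 i) (norm_nonneg _)
    _ = (∑ t, ∑ i, |C t i|) * ∑ i, ‖eval y (p i)‖ := by rw [Finset.mul_sum]

variable {N : ℕ}

/-- the size of the minors of `(x, p)` -/
def W (x p : EN N) : ℝ := ‖fun a : Fin (N + 1) × Fin (N + 1) => x a.1 * p a.2 - x a.2 * p a.1‖

private theorem W_cont (p : EN N) : Continuous fun x : EN N => W x p := by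
  unfold W
  refine continuous_norm.comp (continuous_pi fun a => ?_)
  fun_prop

private theorem W_nonneg (x p : EN N) : 0 ≤ W x p := norm_nonneg _

private theorem le_W (x p : EN N) (i j : Fin (N + 1)) : ‖x i * p j - x j * p i‖ ≤ W x p :=
  norm_le_pi_norm (fun a : Fin (N + 1) × Fin (N + 1) => x a.1 * p a.2 - x a.2 * p a.1) (i, j)

private theorem W_le {x p : EN N} {C : ℝ} (hC : 0 ≤ C) (h : ∀ i j, ‖x i * p j - x j * p i‖ ≤ C) : W x p ≤ C :=
  (pi_norm_le_iff_of_nonneg hC).2 fun a => h a.1 a.2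

private theorem norm_le_sum (x : EN N) : ‖x‖ ≤ ∑ i, ‖x i‖ := by
  have h : x = ∑ i, (x i) • EuclideanSpace.single i (1 : ℂ) := by
    ext j
    simp [Finset.sum_apply, Pi.single_apply]
  calc ‖x‖ = ‖∑ i, (x i) • EuclideanSpace.single i (1 : ℂ)‖ := by rw [← h]
    _ ≤ ∑ i, ‖(x i) • (EuclideanSpace.single i (1 : ℂ) : EN N)‖ := norm_sum_le _ _
    _ = ∑ i, ‖x i‖ := by simp [norm_smul]

private theorem norm_le_of (x : EN N) {C : ℝ} (h : ∀ i, ‖x i‖ ≤ C) : ‖x‖ ≤ (N + 1) * C := by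
  refine (norm_le_sum x).trans ((Finset.sum_le_sum fun i _ => h i).trans ?_)
  simp

private theorem coord_le (x : EN N) (i : Fin (N + 1)) : ‖x i‖ ≤ ‖x‖ := PiLp.norm_apply_le x i

/-- some coordinate is not small -/
private theorem exists_coord (x : EN N) : ∃ k, ‖x‖ ≤ (N + 1) * ‖x k‖ := by
  obtain ⟨k, -, hk⟩ := Finset.exists_max_image Finset.univ (fun i => ‖x i‖) ⟨0, Finset.mem_univ _⟩
  exact ⟨k, norm_le_of x fun i => hk i (Finset.mem_univ _)⟩

private theorem eq_smul_of_W {x p : EN N} (hp : p ≠ 0) (h : W x p = 0) : ∃ c : ℂ, x = c • p := by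
  obtain ⟨k, hk⟩ := exists_coord p
  have hk0 : p k ≠ 0 := by
    intro h0
    rw [h0, norm_zero, mul_zero] at hk
    exact hp (norm_le_zero_iff.1 hk)
  refine ⟨x k / p k, ?_⟩
  ext i
  have h1 := le_W x p i k
  rw [h] at h1
  have h2 : x i * p k = x k * p i := by
    rw [← sub_eq_zero]; exact norm_le_zero_iff.1 h1
  simp only [PiLp.smul_apply, smul_eq_mul]
  field_simp
  exact h2

private theorem W_smul_self (c : ℂ) (p : EN N) : W (c • p) p = 0 := by
  have : (fun a : Fin (N + 1) × Fin (N + 1) => (c • p) a.1 * p a.2 - (c • p) a.2 * p a.1) = 0 := by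
    funext a; simp; ring
  rw [W, this, norm_zero]

/-- the wedge length is bounded by the minors -/
theorem wd_le_W (x v : EN N) : wd x v ≤ (N + 1) ^ 2 * W x v := by
  rcases eq_or_ne x 0 with rfl | hx
  · have h1 : wd (0 : EN N) v ≤ 0 := (wd_le 0 v).trans (by simp)
    exact h1.trans (mul_nonneg (by positivity) (W_nonneg _ _))
  obtain ⟨k, hk⟩ := exists_coord x
  have hx0 : 0 < ‖x‖ := norm_pos_iff.2 hx
  have hk0 : 0 < ‖x k‖ := by
    by_contra h0
    have h1 : ‖x k‖ = 0 := le_antisymm (not_lt.1 h0) (norm_nonneg _)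
    rw [h1, mul_zero] at hk
    linarith
  have hxk : x k ≠ 0 := norm_pos_iff.1 hk0
  have h1 : wd x v = wd x (v + (-(v k / x k)) • x) := by
    have := wd_inv x v 1 (-(v k / x k))
    simpa using this.symm
  have h2 : ‖v + (-(v k / x k)) • x‖ ≤ (N + 1) * (W x v / ‖x k‖) := by
    refine norm_le_of _ fun i => ?_
    have h3 : (v + (-(v k / x k)) • x) i = -(x i * v k - x k * v i) / x k := by
      simp only [PiLp.add_apply, PiLp.smul_apply, smul_eq_mul]
      field_simp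
      ring
    rw [h3, norm_div, norm_neg]
    gcongr
    exact le_W x v i k
  rw [h1]
  calc wd x (v + (-(v k / x k)) • x) ≤ ‖x‖ * ‖v + (-(v k / x k)) • x‖ := wd_le _ _
    _ ≤ ((N + 1) * ‖x k‖) * ((N + 1) * (W x v / ‖x k‖)) := by gcongr
    _ = (N + 1) ^ 2 * W x v := by field_simp

/-- two different points are not both close to `x` -/
private theorem sep (S : Finset (EN N)) (hS0 : ∀ p ∈ S, p ≠ 0) (hS : ∀ p ∈ S, ∀ p' ∈ S, p ≠ p' → ∀ c : ℂ, p ≠ c • p') {b B : ℝ} (hb : 0 < b) :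
    ∃ c : ℝ, 0 < c ∧ ∀ p ∈ S, ∀ p' ∈ S, p ≠ p' → ∀ x : EN N, b ≤ ‖x‖ → ‖x‖ ≤ B → c ≤ W x p + W x p' := by
  have hK : IsCompact {x : EN N | b ≤ ‖x‖ ∧ ‖x‖ ≤ B} := by
    have : {x : EN N | b ≤ ‖x‖ ∧ ‖x‖ ≤ B} = {x : EN N | b ≤ ‖x‖} ∩ closedBall 0 B := by
      ext x; simp
    rw [this]
    exact (isCompact_closedBall _ _).inter_left (isClosed_le continuous_const continuous_norm)
  have h1 : ∀ p ∈ S, ∀ p' ∈ S, p ≠ p' → ∀ᶠ c in 𝓝[>] (0 : ℝ), ∀ x : EN N, b ≤ ‖x‖ → ‖x‖ ≤ B → c ≤ W x p + W x p' := by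
    intro p hp p' hp' hne
    rcases Set.eq_empty_or_nonempty {x : EN N | b ≤ ‖x‖ ∧ ‖x‖ ≤ B} with he | hne'
    · filter_upwards with c x h1 h2
      have : x ∈ {x : EN N | b ≤ ‖x‖ ∧ ‖x‖ ≤ B} := ⟨h1, h2⟩
      rw [he] at this
      exact this.elim
    obtain ⟨x₀, hx₀, hmin⟩ := hK.exists_isMinOn hne' ((W_cont p).add (W_cont p')).continuousOn
    have hpos : 0 < W x₀ p + W x₀ p' := by
      by_contra hle
      have e1 : W x₀ p = 0 := le_antisymm (by linarith [W_nonneg x₀ p']) (W_nonneg _ _)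
      have e2 : W x₀ p' = 0 := le_antisymm (by linarith [W_nonneg x₀ p]) (W_nonneg _ _)
      obtain ⟨c, hc⟩ := eq_smul_of_W (hS0 p hp) e1
      obtain ⟨c', hc'⟩ := eq_smul_of_W (hS0 p' hp') e2
      have hx : x₀ ≠ 0 := norm_pos_iff.1 (hb.trans_le hx₀.1)
      have hc0 : c ≠ 0 := by rintro rfl; exact hx (by rw [hc, zero_smul])
      apply hS p hp p' hp' hne (c⁻¹ * c')
      rw [mul_smul, ← hc', hc, smul_smul, inv_mul_cancel₀ hc0, one_smul]
    filter_upwards [Ioo_mem_nhdsGT hpos] with c hc x h1 h2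
    exact hc.2.le.trans (hmin ⟨h1, h2⟩)
  have h2 : ∀ᶠ c in 𝓝[>] (0 : ℝ), ∀ q ∈ S ×ˢ S, q.1 ≠ q.2 → ∀ x : EN N, b ≤ ‖x‖ → ‖x‖ ≤ B → c ≤ W x q.1 + W x q.2 := by
    rw [Filter.eventually_all_finset]
    rintro ⟨p, p'⟩ hq
    rw [Finset.mem_product] at hq
    by_cases hne : p = p'
    · filter_upwards with c h
      exact absurd hne h
    · filter_upwards [h1 p hq.1 p' hq.2 hne] with c hc _
      exact hc
  obtain ⟨c, hc, hc0⟩ := (h2.and self_mem_nhdsWithin).exists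
  exact ⟨c, hc0, fun p hp p' hp' hne => hc (p, p') (Finset.mk_mem_product hp hp') hne⟩


/-- a disc which stays close to one point is short -/
private theorem near_point (p : EN N) (hp : p ≠ 0) (B : ℝ) :
    ∃ C : ℝ, 0 ≤ C ∧ ∀ (δ : ℝ), 0 ≤ δ → ∀ φ : ℂ → EN N, DifferentiableOn ℂ φ (ball 0 1) → (∀ w ∈ ball (0 : ℂ) 1, ‖φ w‖ ≤ B) →
      (∀ w ∈ ball (0 : ℂ) (1 / 2), W (φ w) p ≤ δ) → wd (φ 0) (deriv φ 0) ≤ C * δ := by
  obtain ⟨k, hk⟩ := exists_coord p
  have hp0 : 0 < ‖p‖ := norm_pos_iff.2 hp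
  have hk0 : 0 < ‖p k‖ := by
    by_contra h0
    have h1 : ‖p k‖ = 0 := le_antisymm (not_lt.1 h0) (norm_nonneg _)
    rw [h1, mul_zero] at hk
    linarith
  have hpk : p k ≠ 0 := norm_pos_iff.1 hk0
  set D : ℝ := (N + 1) / ‖p k‖ with hD
  have hD0 : 0 ≤ D := by positivity
  refine ⟨(N + 1) ^ 2 * ((|B| / ‖p k‖) * ‖p‖ * (4 * D) * 2 + (|B| * 4 / ‖p k‖) * ‖p‖ * D * 2 + (|B| + |B| / ‖p k‖ * ‖p‖) * (4 * D) * 2), by positivity,
    fun δ hδ φ hφ hB hW => ?_⟩
  have hball : ∀ w ∈ ball (0 : ℂ) (1 / 2), w ∈ ball (0 : ℂ) 1 := fun w hw => by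
    rw [mem_ball_zero_iff] at hw ⊢; linarith
  -- the coefficient and the rest
  set a : ℂ → ℂ := fun w => φ w k / p k with ha
  set ψ : ℂ → EN N := fun w => φ w - a w • p with hψ
  have hφd : ∀ w ∈ ball (0 : ℂ) 1, DifferentiableAt ℂ φ w := fun w hw => (hφ w hw).differentiableAt (isOpen_ball.mem_nhds hw)
  have hcd : ∀ w ∈ ball (0 : ℂ) 1, DifferentiableAt ℂ (fun w => φ w k) w := fun w hw =>
    ((EuclideanSpace.proj (𝕜 := ℂ) k : EN N →L[ℂ] ℂ).differentiableAt).comp w (hφd w hw)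
  have had : ∀ w ∈ ball (0 : ℂ) 1, DifferentiableAt ℂ a w := fun w hw => (hcd w hw).div_const _
  have hψd : ∀ w ∈ ball (0 : ℂ) 1, DifferentiableAt ℂ ψ w := fun w hw => (hφd w hw).sub ((had w hw).smul_const p)
  have h0 : (0 : ℂ) ∈ ball (0 : ℂ) 1 := mem_ball_self one_pos
  have hψB : ∀ w ∈ ball (0 : ℂ) (1 / 2), ‖ψ w‖ ≤ D * δ := by
    intro w hw
    have h1 : ‖ψ w‖ ≤ (N + 1) * (δ / ‖p k‖) := by
      refine norm_le_of _ fun i => ?_
      have h3 : (ψ w) i = (φ w i * p k - φ w k * p i) / p k := by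
        simp only [hψ, ha, PiLp.sub_apply, PiLp.smul_apply, smul_eq_mul]
        field_simp
      rw [h3, norm_div]
      gcongr
      exact (le_W (φ w) p i k).trans (hW w hw)
    rw [hD]
    calc ‖ψ w‖ ≤ (N + 1) * (δ / ‖p k‖) := h1
      _ = (N + 1) / ‖p k‖ * δ := by ring
  have hψ' : ‖deriv ψ 0‖ ≤ 4 * (D * δ) := by
    have := Complex.norm_deriv_le_of_forall_mem_sphere_norm_le (c := 0) (R := 1 / 4) (C := D * δ) (f := ψ) (by norm_num)
      (DifferentiableOn.diffContOnCl fun w hw => (hψd w (by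
        rw [closure_ball _ (by norm_num)] at hw
        rw [mem_closedBall_zero_iff] at hw
        rw [mem_ball_zero_iff]; linarith)).differentiableWithinAt) (fun w hw => hψB w (by
          rw [mem_sphere_zero_iff_norm] at hw
          rw [mem_ball_zero_iff, hw]; norm_num))
    calc ‖deriv ψ 0‖ ≤ D * δ / (1 / 4) := this
      _ = 4 * (D * δ) := by ring
  have haB : ∀ w ∈ ball (0 : ℂ) 1, ‖a w‖ ≤ |B| / ‖p k‖ := by
    intro w hw
    rw [ha]
    simp only [norm_div]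
    gcongr
    exact (coord_le _ _).trans ((hB w hw).trans (le_abs_self _))
  have ha' : ‖deriv a 0‖ ≤ |B| * 4 / ‖p k‖ := by
    have := Complex.norm_deriv_le_of_forall_mem_sphere_norm_le (c := 0) (R := 1 / 4) (C := |B| / ‖p k‖) (f := a) (by norm_num)
      (DifferentiableOn.diffContOnCl fun w hw => (had w (by
        rw [closure_ball _ (by norm_num)] at hw
        rw [mem_closedBall_zero_iff] at hw
        rw [mem_ball_zero_iff]; linarith)).differentiableWithinAt) (fun w hw => haB w (by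
          rw [mem_sphere_zero_iff_norm] at hw
          rw [mem_ball_zero_iff, hw]; norm_num))
    calc ‖deriv a 0‖ ≤ |B| / ‖p k‖ / (1 / 4) := this
      _ = |B| * 4 / ‖p k‖ := by ring
  have hx : φ 0 = a 0 • p + ψ 0 := by simp [hψ]
  have hv : deriv φ 0 = deriv a 0 • p + deriv ψ 0 := by
    have h1 : deriv ψ 0 = deriv φ 0 - deriv a 0 • p := by
      rw [hψ]
      rw [deriv_fun_sub (hφd 0 h0) ((had 0 h0).smul_const p), deriv_smul_const (had 0 h0)]
    rw [h1]; abel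
  have hψ0 : ‖ψ 0‖ ≤ D * δ := hψB 0 (mem_ball_self (by norm_num))
  have hψ0' : ‖ψ 0‖ ≤ |B| + |B| / ‖p k‖ * ‖p‖ := by
    calc ‖ψ 0‖ = ‖φ 0 - a 0 • p‖ := rfl
      _ ≤ ‖φ 0‖ + ‖a 0 • p‖ := norm_sub_le _ _
      _ ≤ |B| + |B| / ‖p k‖ * ‖p‖ := by
          rw [norm_smul]
          gcongr
          · exact (hB 0 h0).trans (le_abs_self _)
          · exact haB 0 h0
  refine (wd_le_W _ _).trans ?_
  rw [mul_assoc]
  refine mul_le_mul_of_nonneg_left ?_ (by positivity)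
  refine W_le (by positivity) fun i j => ?_
  have e : φ 0 i * deriv φ 0 j - φ 0 j * deriv φ 0 i
      = a 0 * (p i * deriv ψ 0 j - p j * deriv ψ 0 i) + deriv a 0 * (ψ 0 i * p j - ψ 0 j * p i)
        + (ψ 0 i * deriv ψ 0 j - ψ 0 j * deriv ψ 0 i) := by
    have hxi : ∀ i, φ 0 i = a 0 * p i + ψ 0 i := fun i => by
      have := congrArg (fun y : EN N => y i) hx
      simpa using this
    have hvi : ∀ i, deriv φ 0 i = deriv a 0 * p i + deriv ψ 0 i := fun i => by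
      have := congrArg (fun y : EN N => y i) hv
      simpa using this
    rw [hxi i, hxi j, hvi i, hvi j]
    ring
  have t1 : ‖a 0 * (p i * deriv ψ 0 j - p j * deriv ψ 0 i)‖ ≤ (|B| / ‖p k‖) * ‖p‖ * (4 * D) * 2 * δ := by
    rw [norm_mul]
    calc ‖a 0‖ * ‖p i * deriv ψ 0 j - p j * deriv ψ 0 i‖ ≤ (|B| / ‖p k‖) * (‖p‖ * (4 * (D * δ)) + ‖p‖ * (4 * (D * δ))) := by
          gcongr
          · exact haB 0 h0
          · refine (norm_sub_le _ _).trans ?_
            rw [norm_mul, norm_mul]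
            gcongr
            · exact coord_le _ _
            · exact (coord_le _ _).trans hψ'
            · exact coord_le _ _
            · exact (coord_le _ _).trans hψ'
      _ = (|B| / ‖p k‖) * ‖p‖ * (4 * D) * 2 * δ := by ring
  have t2 : ‖deriv a 0 * (ψ 0 i * p j - ψ 0 j * p i)‖ ≤ (|B| * 4 / ‖p k‖) * ‖p‖ * D * 2 * δ := by
    rw [norm_mul]
    calc ‖deriv a 0‖ * ‖ψ 0 i * p j - ψ 0 j * p i‖ ≤ (|B| * 4 / ‖p k‖) * ((D * δ) * ‖p‖ + (D * δ) * ‖p‖) := by
          gcongr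
          refine (norm_sub_le _ _).trans ?_
          rw [norm_mul, norm_mul]
          gcongr
          · exact (coord_le _ _).trans hψ0
          · exact coord_le _ _
          · exact (coord_le _ _).trans hψ0
          · exact coord_le _ _
      _ = (|B| * 4 / ‖p k‖) * ‖p‖ * D * 2 * δ := by ring
  have t3 : ‖ψ 0 i * deriv ψ 0 j - ψ 0 j * deriv ψ 0 i‖ ≤ (|B| + |B| / ‖p k‖ * ‖p‖) * (4 * D) * 2 * δ := by
    refine (norm_sub_le _ _).trans ?_
    rw [norm_mul, norm_mul]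
    calc ‖ψ 0 i‖ * ‖deriv ψ 0 j‖ + ‖ψ 0 j‖ * ‖deriv ψ 0 i‖
        ≤ (|B| + |B| / ‖p k‖ * ‖p‖) * (4 * (D * δ)) + (|B| + |B| / ‖p k‖ * ‖p‖) * (4 * (D * δ)) := by
          gcongr
          · exact (coord_le _ _).trans hψ0'
          · exact (coord_le _ _).trans hψ'
          · exact (coord_le _ _).trans hψ0'
          · exact (coord_le _ _).trans hψ'
      _ = (|B| + |B| / ‖p k‖ * ‖p‖) * (4 * D) * 2 * δ := by ring
  rw [e]
  refine (norm_add₃_le).trans ?_
  linarith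

/-- the evaluation of a polynomial on the phase space -/
def pv (Θ : MvPolynomial (Fin (N + 1) ⊕ Fin (N + 1)) ℂ) (x v : EN N) : ℂ := eval (Sum.elim x.ofLp v.ofLp) Θ

/-- the minor `a` of `(x, p)` as a polynomial in `x` -/
private def mi (p : EN N) (a : Fin (N + 1) × Fin (N + 1)) : MvPolynomial (Fin (N + 1)) ℂ := X a.1 * C (p a.2) - X a.2 * C (p a.1)

private theorem eval_mi (p : EN N) (a : Fin (N + 1) × Fin (N + 1)) (x : Fin (N + 1) → ℂ) : eval x (mi p a) = x a.1 * p a.2 - x a.2 * p a.1 := by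
  simp [mi]

private theorem W_max (x p : EN N) : ∃ a, W x p = ‖eval x.ofLp (mi p a)‖ := by
  obtain ⟨a, -, ha⟩ := Finset.exists_max_image Finset.univ (fun a : Fin (N + 1) × Fin (N + 1) => ‖x a.1 * p a.2 - x a.2 * p a.1‖) ⟨(0, 0), Finset.mem_univ _⟩
  refine ⟨a, le_antisymm ?_ ?_⟩
  · rw [eval_mi]
    exact W_le (norm_nonneg _) fun i j => ha (i, j) (Finset.mem_univ _)
  · rw [eval_mi]
    exact le_W x p a.1 a.2

/-- the derivative of a polynomial along a curve -/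
private theorem deriv_eval {φ : ℂ → EN N} {w : ℂ} (h : DifferentiableAt ℂ φ w) (G : MvPolynomial (Fin (N + 1)) ℂ) :
    HasDerivAt (fun w => eval (φ w).ofLp G) (∑ i, deriv φ w i * eval (φ w).ofLp (pderiv i G)) w := by
  have hc : ∀ i, HasDerivAt (fun w => φ w i) (deriv φ w i) w := fun i =>
    ((EuclideanSpace.proj (𝕜 := ℂ) i : EN N →L[ℂ] ℂ).hasFDerivAt).comp_hasDerivAt w h.hasDerivAt
  induction G using MvPolynomial.induction_on with
  | C a => simpa using hasDerivAt_const w a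
  | add p q hp hq =>
    have := hp.add hq
    simp only [map_add, mul_add, Finset.sum_add_distrib]
    exact this
  | mul_X p j hp =>
    have := hp.mul (hc j)
    have e : (∑ i, deriv φ w i * eval (φ w).ofLp (pderiv i (p * X j))) =
        (∑ i, deriv φ w i * eval (φ w).ofLp (pderiv i p)) * φ w j + eval (φ w).ofLp p * deriv φ w j := by
      simp only [Derivation.leibniz, pderiv_X, smul_eq_mul, map_add, map_mul, eval_X, mul_add, Finset.sum_add_distrib]
      rw [add_comm]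
      congr 1
      · rw [Finset.sum_mul]
        refine Finset.sum_congr rfl fun i _ => ?_
        ring
      · rw [Finset.sum_eq_single j]
        · simp; ring
        · intro i _ hij
          simp [Ne.symm hij]
        · simp
    rw [e]
    have e2 : (fun w => eval (φ w).ofLp (p * X j)) = (fun w => eval (φ w).ofLp p) * fun w => φ w j := by
      funext w; simp
    rw [e2]
    exact this

private theorem disc_null_aux {κ : Type*} [Fintype κ] (R : κ → MvPolynomial (Fin (N + 1)) ℂ) (H : MvPolynomial (Fin (N + 1)) ℂ)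
    (Θ : MvPolynomial (Fin (N + 1) ⊕ Fin (N + 1)) ℂ) (S : Finset (EN N)) (hS0 : ∀ p ∈ S, p ≠ 0)
    (hS : ∀ p ∈ S, ∀ p' ∈ S, p ≠ p' → ∀ c : ℂ, p ≠ c • p')
    (hΘ : ∀ x v : EN N, eval x.ofLp H ≠ 0 → (∀ k, eval x.ofLp (R k) = 0) → (∀ k, ∑ i, v i * eval x.ofLp (pderiv i (R k)) = 0) →
      (∀ p ∈ S, ∀ c : ℂ, x ≠ c • p) → pv Θ x v = 0) (b B : ℝ) (hb : 0 < b) (hB0 : 0 ≤ B) :
    ∃ C α : ℝ, 0 ≤ C ∧ 0 < α ∧ ∀ ε : ℝ, 0 < ε → ε ≤ 1 → ∀ (φ : ℂ → EN N) (q : ℝ), DifferentiableOn ℂ φ (ball 0 1) →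
      (∀ w ∈ ball (0 : ℂ) 1, b ≤ ‖φ w‖ ∧ ‖φ w‖ ≤ B ∧ b ≤ ‖eval (φ w).ofLp H‖ ∧ ∀ k, ‖eval (φ w).ofLp (R k)‖ ≤ ε) →
      (∀ w ∈ ball (0 : ℂ) (1 / 2), q ≤ B * ‖pv Θ (φ w) (deriv φ w)‖) → q ≤ B * fs (φ 0) (deriv φ 0) → q ≤ C * ε ^ α := by
  classical
  -- Nullstellensatz
  obtain ⟨M, hM1, hM⟩ := ns_bound (T := {p // p ∈ S} → Fin (N + 1) × Fin (N + 1))
    (fun τ => rename Sum.inl H * Θ * ∏ p, rename Sum.inl (mi p.1 (τ p)))
    (Sum.elim (fun k => rename (Sum.inl : Fin (N + 1) → Fin (N + 1) ⊕ Fin (N + 1)) (R k))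
      (fun k => ∑ i, X (Sum.inr i) * rename (Sum.inl : Fin (N + 1) → Fin (N + 1) ⊕ Fin (N + 1)) (pderiv i (R k)))) (by
      intro τ y hy
      rw [map_mul, map_mul, map_prod]
      simp only [eval_rename]
      set x : EN N := WithLp.toLp 2 (y ∘ Sum.inl) with hx
      set v : EN N := WithLp.toLp 2 (y ∘ Sum.inr) with hv
      by_cases h1 : eval (y ∘ Sum.inl) H = 0
      · rw [h1]; simp
      by_cases h2 : ∀ p ∈ S, ∀ c : ℂ, x ≠ c • p
      · have h3 := hΘ x v h1 (fun k => by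
          have := hy (Sum.inl k)
          simpa only [Sum.elim_inl, eval_rename] using this) (fun k => by
          have := hy (Sum.inr k)
          simp only [Sum.elim_inr, map_sum, map_mul, eval_X, eval_rename] at this
          exact this) h2
        have e : Sum.elim x.ofLp v.ofLp = y := by
          funext i; rcases i with i | i <;> rfl
        rw [pv, e] at h3
        rw [h3]; simp
      · push Not at h2
        obtain ⟨p, hp, c, hc⟩ := h2
        have : ∏ p : {p // p ∈ S}, eval (y ∘ Sum.inl) (mi p.1 (τ p)) = 0 := by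
          refine Finset.prod_eq_zero (Finset.mem_univ ⟨p, hp⟩) ?_
          have e1 : (y ∘ Sum.inl) = x.ofLp := rfl
          have h3 := le_W x p (τ ⟨p, hp⟩).1 (τ ⟨p, hp⟩).2
          rw [hc, W_smul_self] at h3
          rw [e1, eval_mi, hc]
          exact norm_le_zero_iff.1 h3
        rw [this, mul_zero])
  obtain ⟨C₁, hC₁, hC⟩ := hM (2 * B)
  obtain ⟨c, hc0, hsep⟩ := sep S hS0 hS (b := b) (B := B) hb
  have hnp : ∀ p ∈ S, ∃ C : ℝ, 0 ≤ C ∧ ∀ (δ : ℝ), 0 ≤ δ → ∀ φ : ℂ → EN N, DifferentiableOn ℂ φ (ball 0 1) → (∀ w ∈ ball (0 : ℂ) 1, ‖φ w‖ ≤ B) →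
      (∀ w ∈ ball (0 : ℂ) (1 / 2), W (φ w) p ≤ δ) → wd (φ 0) (deriv φ 0) ≤ C * δ := fun p hp => near_point p (hS0 p hp) B
  choose! Cp hCp0 hCp using hnp
  set n : ℕ := S.card with hn
  set β : ℝ := 1 / (2 * M) with hβ
  have hMpos : (0 : ℝ) < M := by exact_mod_cast hM1
  have hβ0 : 0 < β := by rw [hβ]; positivity
  set α : ℝ := β / (n + 1) with hα
  have hn1 : (0 : ℝ) < n + 1 := by positivity
  have hα0 : 0 < α := by rw [hα]; positivity
  have hαβ : α ≤ β := by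
    rw [hα]
    exact div_le_self hβ0.le (by linarith [(Nat.cast_nonneg n : (0 : ℝ) ≤ n)])
  -- the constants
  set K₁ : ℝ := (C₁ * (3 * Fintype.card κ)) ^ ((M : ℝ)⁻¹) with hK₁
  have hK₁0 : 0 ≤ K₁ := Real.rpow_nonneg (by positivity) _
  set A₀ : ℝ := B * (B * (2 * B)) / b ^ 2 with hA₀
  have hA₀0 : 0 ≤ A₀ := by positivity
  refine ⟨B * (b⁻¹ * K₁) + B * ((∑ p ∈ S, Cp p) / b ^ 2) + A₀ * (2 / c), α, ?_, hα0, ?_⟩
  · have : 0 ≤ ∑ p ∈ S, Cp p := Finset.sum_nonneg hCp0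
    positivity
  intro ε hε hε1 φ q hφ hφB hq hq0
  have hε0 : 0 ≤ ε := hε.le
  have hsum0 : 0 ≤ ∑ p ∈ S, Cp p := Finset.sum_nonneg hCp0
  have hεα : 0 ≤ ε ^ α := Real.rpow_nonneg hε0 _
  have hball : ∀ w ∈ ball (0 : ℂ) (1 / 2), w ∈ ball (0 : ℂ) 1 := fun w hw => by
    rw [mem_ball_zero_iff] at hw ⊢; linarith
  have hφd : ∀ w ∈ ball (0 : ℂ) 1, DifferentiableAt ℂ φ w := fun w hw => (hφ w hw).differentiableAt (isOpen_ball.mem_nhds hw)
  -- Cauchy
  have cauchy : ∀ {E : Type} [NormedAddCommGroup E] [NormedSpace ℂ E] (f : ℂ → E) (A : ℝ), (∀ w ∈ ball (0 : ℂ) 1, DifferentiableAt ℂ f w) →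
      (∀ w ∈ ball (0 : ℂ) 1, ‖f w‖ ≤ A) → ∀ w ∈ ball (0 : ℂ) (1 / 2), ‖deriv f w‖ ≤ 2 * A := by
    intro E _ _ f A hf hfA w hw
    rw [mem_ball_zero_iff] at hw
    have hA : 0 ≤ A := (norm_nonneg _).trans (hfA 0 (mem_ball_self one_pos))
    have h1 : ∀ r : ℝ, 0 < r → r < 1 / 2 → ‖deriv f w‖ ≤ A / r := by
      intro r hr0 hr
      refine Complex.norm_deriv_le_of_forall_mem_sphere_norm_le hr0 (DifferentiableOn.diffContOnCl fun z hz => (hf z ?_).differentiableWithinAt)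
        fun z hz => hfA z ?_
      · rw [closure_ball _ hr0.ne', mem_closedBall_iff_norm] at hz
        rw [mem_ball_zero_iff]
        calc ‖z‖ = ‖(z - w) + w‖ := by ring_nf
          _ ≤ ‖z - w‖ + ‖w‖ := norm_add_le _ _
          _ < 1 := by linarith
      · rw [mem_sphere_iff_norm] at hz
        rw [mem_ball_zero_iff]
        calc ‖z‖ = ‖(z - w) + w‖ := by ring_nf
          _ ≤ ‖z - w‖ + ‖w‖ := norm_add_le _ _
          _ < 1 := by linarith
    have h2 : Tendsto (fun r : ℝ => A / r) (𝓝[<] (1 / 2)) (𝓝 (A / (1 / 2))) := by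
      have : ContinuousAt (fun r : ℝ => A / r) (1 / 2) := continuousAt_const.div continuousAt_id (by norm_num)
      exact this.tendsto.mono_left nhdsWithin_le_nhds
    have h3 : ‖deriv f w‖ ≤ A / (1 / 2) := by
      refine ge_of_tendsto h2 ?_
      filter_upwards [Ioo_mem_nhdsLT (show (0 : ℝ) < 1 / 2 by norm_num)] with r hr
      exact h1 r hr.1 hr.2
    calc ‖deriv f w‖ ≤ A / (1 / 2) := h3
      _ = 2 * A := by ring
  have hφ' : ∀ w ∈ ball (0 : ℂ) (1 / 2), ‖deriv φ w‖ ≤ 2 * B := cauchy φ B hφd fun w hw => (hφB w hw).2.1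
  have hR' : ∀ k, ∀ w ∈ ball (0 : ℂ) (1 / 2), ‖∑ i, deriv φ w i * eval (φ w).ofLp (pderiv i (R k))‖ ≤ 2 * ε := by
    intro k w hw
    rw [← (deriv_eval (hφd w (hball w hw)) (R k)).deriv]
    exact cauchy (fun w => eval (φ w).ofLp (R k)) ε (fun w hw => (deriv_eval (hφd w hw) (R k)).differentiableAt) (fun w hw => (hφB w hw).2.2.2 k) w hw
  by_cases hA : ∃ w ∈ ball (0 : ℂ) (1 / 2), ε ^ β ≤ ∏ p : {p // p ∈ S}, W (φ w) p.1
  · -- far from the exceptional points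
    obtain ⟨w, hw, hwp⟩ := hA
    have hτ : ∀ p : {p // p ∈ S}, ∃ a, W (φ w) p.1 = ‖eval (φ w).ofLp (mi p.1 a)‖ := fun p => W_max _ _
    choose τ hτ using hτ
    have hy : ∀ i, ‖(Sum.elim (φ w).ofLp (deriv φ w).ofLp) i‖ ≤ 2 * B := by
      rintro (i | i)
      · simp only [Sum.elim_inl]
        refine (coord_le _ _).trans ((hφB w (hball w hw)).2.1.trans ?_)
        linarith
      · simp only [Sum.elim_inr]
        exact (coord_le _ _).trans (hφ' w hw)
    have h1 := hC τ _ hy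
    have e1 : eval (Sum.elim (φ w).ofLp (deriv φ w).ofLp) (rename Sum.inl H * Θ * ∏ p, rename Sum.inl (mi p.1 (τ p)))
        = eval (φ w).ofLp H * pv Θ (φ w) (deriv φ w) * ∏ p : {p // p ∈ S}, eval (φ w).ofLp (mi p.1 (τ p)) := by
      rw [map_mul, map_mul, map_prod]
      simp only [eval_rename, Sum.elim_comp_inl, pv]
    rw [e1] at h1
    have e2 : ‖eval (φ w).ofLp H * pv Θ (φ w) (deriv φ w) * ∏ p : {p // p ∈ S}, eval (φ w).ofLp (mi p.1 (τ p))‖
        = ‖eval (φ w).ofLp H‖ * ‖pv Θ (φ w) (deriv φ w)‖ * ∏ p : {p // p ∈ S}, W (φ w) p.1 := by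
      rw [norm_mul, norm_mul, norm_prod]
      congr 1
      exact Finset.prod_congr rfl fun p _ => (hτ p).symm
    rw [e2] at h1
    have h2 : ∑ i, ‖eval (Sum.elim (φ w).ofLp (deriv φ w).ofLp) ((Sum.elim (fun k => rename (Sum.inl : Fin (N + 1) → Fin (N + 1) ⊕ Fin (N + 1)) (R k))
      (fun k => ∑ i, X (Sum.inr i) * rename (Sum.inl : Fin (N + 1) → Fin (N + 1) ⊕ Fin (N + 1)) (pderiv i (R k)))) i)‖ ≤ 3 * Fintype.card κ * ε := by
      rw [Fintype.sum_sum_type]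
      simp only [Sum.elim_inl, Sum.elim_inr, eval_rename, Sum.elim_comp_inl, map_sum, map_mul, eval_X]
      have h3 : ∑ k, ‖eval (φ w).ofLp (R k)‖ ≤ ∑ k : κ, ε := Finset.sum_le_sum fun k _ => (hφB w (hball w hw)).2.2.2 k
      have h4 : ∑ k, ‖∑ i, (deriv φ w).ofLp i * eval (φ w).ofLp (pderiv i (R k))‖ ≤ ∑ k : κ, 2 * ε := Finset.sum_le_sum fun k _ => hR' k w hw
      simp only [Finset.sum_const, Finset.card_univ, nsmul_eq_mul] at h3 h4
      linarith
    have h5 : (b * ‖pv Θ (φ w) (deriv φ w)‖ * ε ^ β) ^ M ≤ (C₁ * (3 * Fintype.card κ)) * ε := by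
      calc (b * ‖pv Θ (φ w) (deriv φ w)‖ * ε ^ β) ^ M
          ≤ (‖eval (φ w).ofLp H‖ * ‖pv Θ (φ w) (deriv φ w)‖ * ∏ p : {p // p ∈ S}, W (φ w) p.1) ^ M := by
            have hb' := (hφB w (hball w hw)).2.2.1
            gcongr
        _ ≤ _ := h1
        _ ≤ C₁ * (3 * Fintype.card κ * ε) := mul_le_mul_of_nonneg_left h2 hC₁
        _ = (C₁ * (3 * Fintype.card κ)) * ε := by ring
    have h6 : b * ‖pv Θ (φ w) (deriv φ w)‖ * ε ^ β ≤ K₁ * ε ^ ((M : ℝ)⁻¹) := by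
      rw [hK₁, ← Real.mul_rpow (by positivity) hε0]
      have h7 : b * ‖pv Θ (φ w) (deriv φ w)‖ * ε ^ β = ((b * ‖pv Θ (φ w) (deriv φ w)‖ * ε ^ β) ^ M) ^ ((M : ℝ)⁻¹) := by
        rw [Real.pow_rpow_inv_natCast (by positivity) (by omega)]
      rw [h7]
      exact Real.rpow_le_rpow (by positivity) h5 (by positivity)
    have h8 : ‖pv Θ (φ w) (deriv φ w)‖ ≤ b⁻¹ * K₁ * ε ^ α := by
      have h9 : ε ^ ((M : ℝ)⁻¹) = ε ^ β * ε ^ β := by
        rw [← Real.rpow_add hε]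
        congr 1
        rw [hβ]; field_simp; norm_num
      rw [h9] at h6
      have hβp : 0 < ε ^ β := Real.rpow_pos_of_pos hε _
      have h10 : b * ‖pv Θ (φ w) (deriv φ w)‖ ≤ K₁ * ε ^ β := by
        refine le_of_mul_le_mul_right ?_ hβp
        calc b * ‖pv Θ (φ w) (deriv φ w)‖ * ε ^ β ≤ K₁ * (ε ^ β * ε ^ β) := h6
          _ = K₁ * ε ^ β * ε ^ β := by ring
      have h11 : ε ^ β ≤ ε ^ α := Real.rpow_le_rpow_of_exponent_ge hε hε1 hαβ
      calc ‖pv Θ (φ w) (deriv φ w)‖ = b⁻¹ * (b * ‖pv Θ (φ w) (deriv φ w)‖) := by field_simp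
        _ ≤ b⁻¹ * (K₁ * ε ^ β) := by gcongr
        _ ≤ b⁻¹ * (K₁ * ε ^ α) := by gcongr
        _ = b⁻¹ * K₁ * ε ^ α := by ring
    calc q ≤ B * ‖pv Θ (φ w) (deriv φ w)‖ := hq w hw
      _ ≤ B * (b⁻¹ * K₁ * ε ^ α) := by gcongr
      _ = B * (b⁻¹ * K₁) * ε ^ α := by ring
      _ ≤ (B * (b⁻¹ * K₁) + B * ((∑ p ∈ S, Cp p) / b ^ 2) + A₀ * (2 / c)) * ε ^ α := by
          have : 0 ≤ B * ((∑ p ∈ S, Cp p) / b ^ 2) + A₀ * (2 / c) := by positivity
          exact mul_le_mul_of_nonneg_right (by linarith) hεα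
  · push Not at hA
    -- close to the exceptional points
    set δ : ℝ := ε ^ α with hδ
    have hδ0 : 0 < δ := Real.rpow_pos_of_pos hε _
    have hδ1 : δ ≤ 1 := Real.rpow_le_one hε0 hε1 hα0.le
    have hδn : ε ^ β ≤ δ ^ n := by
      rw [hδ, ← Real.rpow_natCast, ← Real.rpow_mul hε0]
      refine Real.rpow_le_rpow_of_exponent_ge hε hε1 ?_
      rw [hα]
      rw [div_mul_eq_mul_div, div_le_iff₀ hn1]
      nlinarith
    have hex : ∀ w ∈ ball (0 : ℂ) (1 / 2), ∃ p ∈ S, W (φ w) p < δ := by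
      intro w hw
      by_contra hcon
      push Not at hcon
      have h1 : δ ^ n ≤ ∏ p : {p // p ∈ S}, W (φ w) p.1 := by
        have : δ ^ n = ∏ p : {p // p ∈ S}, δ := by
          rw [Finset.prod_const, Finset.card_univ, Fintype.card_coe]
        rw [this]
        exact Finset.prod_le_prod (fun _ _ => hδ0.le) fun p _ => hcon p.1 p.2
      exact absurd (hδn.trans h1) (not_le.2 (hA w hw))
    have h00 : (0 : ℂ) ∈ ball (0 : ℂ) (1 / 2) := mem_ball_self (by norm_num)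
    have hfin : q ≤ (B * ((∑ p ∈ S, Cp p) / b ^ 2) + A₀ * (2 / c)) * δ := by
      by_cases hsmall : 2 * δ ≤ c
      · obtain ⟨p₀, hp₀, hp₀δ⟩ := hex 0 h00
        have hall : ∀ w ∈ ball (0 : ℂ) (1 / 2), W (φ w) p₀ < δ := by
          have hφc : ContinuousOn φ (ball 0 (1 / 2)) := hφ.continuousOn.mono hball
          set u : Set ℂ := ball (0 : ℂ) (1 / 2) ∩ {w | W (φ w) p₀ < δ} with hu
          set v : Set ℂ := ⋃ p ∈ {p | p ∈ S ∧ p ≠ p₀}, ball (0 : ℂ) (1 / 2) ∩ {w | W (φ w) p < δ} with hv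
          have hop : ∀ p, IsOpen (ball (0 : ℂ) (1 / 2) ∩ {w | W (φ w) p < δ}) := fun p =>
            (((W_cont p).comp_continuousOn hφc).isOpen_inter_preimage isOpen_ball isOpen_Iio)
          have hdisj : ∀ w ∈ u, w ∉ v := by
            intro w hwu hwv
            rw [hv, Set.mem_iUnion₂] at hwv
            obtain ⟨p, ⟨hp, hpp⟩, hw1, hw2⟩ := hwv
            have h1 := hsep p hp p₀ hp₀ hpp (φ w) (hφB w (hball w hw1)).1 (hφB w (hball w hw1)).2.1
            have h2 : W (φ w) p₀ < δ := hwu.2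
            have h3 : W (φ w) p < δ := hw2
            linarith
          have hpre : IsPreconnected (ball (0 : ℂ) (1 / 2)) := (convex_ball _ _).isPreconnected
          intro w hw
          by_contra hcon
          have hcov : ball (0 : ℂ) (1 / 2) ⊆ u ∪ v := by
            intro z hz
            obtain ⟨p, hp, hpz⟩ := hex z hz
            rcases eq_or_ne p p₀ with hpp | hpp
            · left
              rw [hpp] at hpz
              exact ⟨hz, hpz⟩
            · right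
              rw [hv, Set.mem_iUnion₂]
              exact ⟨p, ⟨hp, hpp⟩, hz, hpz⟩
          obtain ⟨z, hz, hzu, hzv⟩ := hpre u v (hop p₀) (isOpen_biUnion fun p _ => hop p) hcov ⟨0, h00, h00, hp₀δ⟩
            ⟨w, hw, by
              rcases hcov hw with h | h
              · exact absurd h.2 hcon
              · exact h⟩
          exact hdisj z hzu hzv
        have h1 := hCp p₀ hp₀ δ hδ0.le φ hφ (fun w hw => (hφB w hw).2.1) fun w hw => (hall w hw).le
        have h2 : Cp p₀ ≤ ∑ p ∈ S, Cp p := Finset.single_le_sum hCp0 hp₀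
        have h3 : fs (φ 0) (deriv φ 0) ≤ (∑ p ∈ S, Cp p) / b ^ 2 * δ := by
          unfold fs
          have hb2 : b ≤ ‖φ 0‖ := (hφB 0 (mem_ball_self one_pos)).1
          calc wd (φ 0) (deriv φ 0) / ‖φ 0‖ ^ 2 ≤ (Cp p₀ * δ) / b ^ 2 := by
                gcongr
                exact mul_nonneg (hCp0 p₀ hp₀) hδ0.le
            _ ≤ ((∑ p ∈ S, Cp p) * δ) / b ^ 2 := by gcongr
            _ = (∑ p ∈ S, Cp p) / b ^ 2 * δ := by ring
        calc q ≤ B * fs (φ 0) (deriv φ 0) := hq0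
          _ ≤ B * ((∑ p ∈ S, Cp p) / b ^ 2 * δ) := by gcongr
          _ = B * ((∑ p ∈ S, Cp p) / b ^ 2) * δ := by ring
          _ ≤ (B * ((∑ p ∈ S, Cp p) / b ^ 2) + A₀ * (2 / c)) * δ := by
              have : 0 ≤ A₀ * (2 / c) := by positivity
              exact mul_le_mul_of_nonneg_right (by linarith) hδ0.le
      · push Not at hsmall
        have h3 : fs (φ 0) (deriv φ 0) ≤ (B * (2 * B)) / b ^ 2 := by
          unfold fs
          have hb2 := hφB 0 (mem_ball_self one_pos)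
          calc wd (φ 0) (deriv φ 0) / ‖φ 0‖ ^ 2 ≤ (‖φ 0‖ * ‖deriv φ 0‖) / ‖φ 0‖ ^ 2 := by
                gcongr; exact wd_le _ _
            _ ≤ (B * (2 * B)) / b ^ 2 := by
                have h4 := hφ' 0 h00
                have h5 := hb2.1
                have h6 := hb2.2.1
                gcongr
        have h4 : 1 ≤ 2 / c * δ := by
          rw [div_mul_eq_mul_div, le_div_iff₀ hc0]; linarith
        calc q ≤ B * fs (φ 0) (deriv φ 0) := hq0
          _ ≤ B * ((B * (2 * B)) / b ^ 2) := by gcongr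
          _ = A₀ * 1 := by rw [hA₀]; ring
          _ ≤ A₀ * (2 / c * δ) := by gcongr
          _ = (A₀ * (2 / c)) * δ := by ring
          _ ≤ (B * ((∑ p ∈ S, Cp p) / b ^ 2) + A₀ * (2 / c)) * δ := by
              have : 0 ≤ B * ((∑ p ∈ S, Cp p) / b ^ 2) := by positivity
              exact mul_le_mul_of_nonneg_right (by linarith) hδ0.le
    calc q ≤ (B * ((∑ p ∈ S, Cp p) / b ^ 2) + A₀ * (2 / c)) * δ := hfin
      _ ≤ (B * (b⁻¹ * K₁) + B * ((∑ p ∈ S, Cp p) / b ^ 2) + A₀ * (2 / c)) * δ := by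
          have : 0 ≤ B * (b⁻¹ * K₁) := by positivity
          exact mul_le_mul_of_nonneg_right (by linarith) hδ0.le

private theorem exists_repr (S : Finset (EN N)) (hS0 : ∀ p ∈ S, p ≠ 0) :
    ∃ S' : Finset (EN N), (∀ p ∈ S', p ≠ 0) ∧ (∀ p ∈ S', ∀ p' ∈ S', p ≠ p' → ∀ c : ℂ, p ≠ c • p') ∧ ∀ p ∈ S, ∃ p' ∈ S', ∃ c : ℂ, p = c • p' := by
  classical
  induction S using Finset.induction_on with
  | empty => exact ⟨∅, by simp, by simp, by simp⟩
  | insert p S _ ih =>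
    obtain ⟨S', h0, h1, h2⟩ := ih fun q hq => hS0 q (Finset.mem_insert_of_mem hq)
    by_cases h : ∃ p' ∈ S', ∃ c : ℂ, p = c • p'
    · refine ⟨S', h0, h1, fun q hq => ?_⟩
      rcases Finset.mem_insert.1 hq with rfl | hq
      · exact h
      · exact h2 q hq
    · push Not at h
      refine ⟨insert p S', fun q hq => ?_, fun q hq q' hq' hne c => ?_, fun q hq => ?_⟩
      · rcases Finset.mem_insert.1 hq with rfl | hq
        · exact hS0 q (Finset.mem_insert_self _ _)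
        · exact h0 q hq
      · rcases Finset.mem_insert.1 hq with h3 | h3 <;> rcases Finset.mem_insert.1 hq' with h4 | h4
        · exact absurd (h3.trans h4.symm) hne
        · rw [h3]; exact h q' h4 c
        · rw [h4]
          intro h5
          have hc : c ≠ 0 := by rintro rfl; exact h0 q h3 (by rw [h5, zero_smul])
          exact h q h3 c⁻¹ (by rw [h5, smul_smul, inv_mul_cancel₀ hc, one_smul])
        · exact h1 q h3 q' h4 hne c
      · rcases Finset.mem_insert.1 hq with rfl | hq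
        · exact ⟨q, Finset.mem_insert_self _ _, 1, (one_smul _ _).symm⟩
        · obtain ⟨p', hp', c, hc⟩ := h2 q hq
          exact ⟨p', Finset.mem_insert_of_mem hp', c, hc⟩

/-- **Quantitative nullness.**  `Θ` is a polynomial in `(x, v)` which vanishes where `R k (x) = 0` and `d (R k) (x) v = 0` for all `k`, if `H x ≠ 0` and `x` is not
one of finitely many points.  A disc `φ` in a compact part of `{H ≠ 0}` with `|R k (φ)| ≤ ε`, for which `|Θ (φ, φ')|` and the Fubini-Study length at `0` are at least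
a constant times `q`, has `q ≤ C ε ^ α`. -/
theorem disc_null {κ : Type*} [Fintype κ] (R : κ → MvPolynomial (Fin (N + 1)) ℂ) (H : MvPolynomial (Fin (N + 1)) ℂ)
    (Θ : MvPolynomial (Fin (N + 1) ⊕ Fin (N + 1)) ℂ) (S : Finset (EN N)) (hS0 : ∀ p ∈ S, p ≠ 0)
    (hΘ : ∀ x v : EN N, eval x.ofLp H ≠ 0 → (∀ k, eval x.ofLp (R k) = 0) → (∀ k, ∑ i, v i * eval x.ofLp (pderiv i (R k)) = 0) →
      (∀ p ∈ S, ∀ c : ℂ, x ≠ c • p) → pv Θ x v = 0) (b B : ℝ) (hb : 0 < b) :
    ∃ C α : ℝ, 0 ≤ C ∧ 0 < α ∧ ∀ ε : ℝ, 0 < ε → ε ≤ 1 → ∀ (φ : ℂ → EN N) (q : ℝ), DifferentiableOn ℂ φ (ball 0 1) →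
      (∀ w ∈ ball (0 : ℂ) 1, b ≤ ‖φ w‖ ∧ ‖φ w‖ ≤ B ∧ b ≤ ‖eval (φ w).ofLp H‖ ∧ ∀ k, ‖eval (φ w).ofLp (R k)‖ ≤ ε) →
      (∀ w ∈ ball (0 : ℂ) (1 / 2), q ≤ B * ‖pv Θ (φ w) (deriv φ w)‖) → q ≤ B * fs (φ 0) (deriv φ 0) → q ≤ C * ε ^ α := by
  obtain ⟨S', h0, h1, h2⟩ := exists_repr S hS0
  rcases lt_or_ge B 0 with hB | hB
  · refine ⟨0, 1, le_refl _, one_pos, fun ε hε hε1 φ q hφ hφB hq hq0 => ?_⟩
    have h3 := hφB 0 (mem_ball_self one_pos)
    exact absurd (h3.1.trans h3.2.1) (not_le.2 (hB.trans hb))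
  · exact disc_null_aux R H Θ S' h0 h1 (fun x v hH hR hdR hx => hΘ x v hH hR hdR fun p hp c hc => by
      obtain ⟨p', hp', c', hc'⟩ := h2 p hp
      exact hx p' hp' (c * c') (by rw [hc, hc', smul_smul])) b B hb hB

end Pool.Agent.SDR
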